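import Pool.Agent.H302R7.Chain

/-!
# A numerical inequality
-/

set_option autoImplicit false

namespace Pool.Agent.H302R7

open scoped Nat

lemma num_aux {n p c B c₀ N : ℕ} (hp : 1 ≤ p) (hQ : p ^ c ≤ B) (hc : c ≤ c₀)
    (hnum : 2 * B ^ (4 * c₀) < N !) (hN : N ≤ n) : 2 * p ^ (4 * c ^ 2) < n ! := by
  have h1 : p ^ (4 * c ^ 2) = (p ^ c) ^ (4 * c) := by
    rw [← pow_mul]; congr 1; ring
  have hB : 1 ≤ B := le_trans (Nat.one_le_pow _ _ hp) hQ
  have h2 : (p ^ c) ^ (4 * c) ≤ B ^ (4 * c₀) :=
    (Nat.pow_le_pow_left hQ _).trans (Nat.pow_le_pow_right hB (by omega))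
  have h3 : N ! ≤ n ! := Nat.factorial_le hN
  rw [h1]
  omega

lemma two_mul_pow_lt_fact : ∀ m : ℕ, 10 ≤ m → 2 * (4 * m + 1) ^ 4 < (2 * m)! := by
  intro m hm
  induction m, hm using Nat.le_induction with
  | base => decide
  | succ m hm ih =>
    have h1 : (2 * (m + 1))! = (2 * m + 2) * ((2 * m + 1) * (2 * m)!) := by
      rw [show 2 * (m + 1) = 2 * m + 1 + 1 by ring, Nat.factorial_succ, Nat.factorial_succ]
    have h2 : (4 * (m + 1) + 1) ^ 4 ≤ (2 * (4 * m + 1)) ^ 4 := Nat.pow_le_pow_left (by omega) 4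
    have h3 : (2 * (4 * m + 1)) ^ 4 = 16 * (4 * m + 1) ^ 4 := by ring
    have h4 : 16 * (2 * m)! ≤ (2 * m + 2) * ((2 * m + 1) * (2 * m)!) := by
      rw [← mul_assoc]
      apply Nat.mul_le_mul_right
      nlinarith
    rw [h1]
    calc 2 * (4 * (m + 1) + 1) ^ 4 ≤ 2 * (16 * (4 * m + 1) ^ 4) := by rw [← h3]; omega
      _ = 16 * (2 * (4 * m + 1) ^ 4) := by ring
      _ < 16 * (2 * m)! := by omega
      _ ≤ _ := h4

lemma sq_lt_two_pow : ∀ m : ℕ, 10 ≤ m → (4 * m + 1) ^ 2 < 2 ^ (m + 1) := by
  intro m hm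
  induction m, hm using Nat.le_induction with
  | base => norm_num
  | succ m hm ih =>
    rw [pow_succ 2 (m + 1)]
    nlinarith

theorem num_ineq {r n p c : ℕ} (hr : 2 ≤ r) (h : Small r n) (hp : 2 ≤ p) (hpc : p ^ c ≤ r) :
    2 * p ^ (4 * c ^ 2) < n ! := by
  have h2 := h.add_two
  have h1 := h.1
  obtain ⟨m, hm⟩ : ∃ m, m = n / 4 := ⟨_, rfl⟩
  rw [← hm] at h1
  have hn1 : 4 * m ≤ n := by omega
  have hn2 : n ≤ 4 * m + 3 := by omega
  have hrm : r ≤ 4 * m + 1 := by omega
  have h2c : 2 ^ c ≤ r := (Nat.pow_le_pow_left hp c).trans hpc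
  have hcm : c < m := by
    have : 2 ^ c < 2 ^ m := lt_of_le_of_lt h2c h1
    exact (Nat.pow_lt_pow_iff_right (by norm_num)).mp this
  have h3c : p ≠ 2 → 3 ^ c ≤ r := fun hne => (Nat.pow_le_pow_left (by omega) c).trans hpc
  rcases Nat.lt_or_ge m 10 with hm10 | hm10
  · have hm2 : 2 ≤ m := by
      by_contra hcon
      have h5 : m ≤ 1 := by omega
      have : 2 ^ m ≤ 2 ^ 1 := Nat.pow_le_pow_right (by norm_num) h5
      omega
    have hcases : m = 2 ∨ m = 3 ∨ m = 4 ∨ m = 5 ∨ m = 6 ∨ m = 7 ∨ m = 8 ∨ m = 9 := by omega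
    have hpow3 : c ≤ 2 ∨ 3 ≤ c := by omega
    rcases hcases with h5 | h5 | h5 | h5 | h5 | h5 | h5 | h5
    · -- m = 2
      rw [h5] at h1 hcm hn1
      exact num_aux (by omega) (hpc.trans (show r ≤ 3 by omega)) (show c ≤ 1 by omega)
        (by decide) hn1
    · rw [h5] at h1 hcm hn1
      exact num_aux (by omega) (hpc.trans (show r ≤ 7 by omega)) (show c ≤ 2 by omega)
        (by decide) hn1
    · -- m = 4
      rw [h5] at h1 hcm hn1
      rcases Nat.lt_or_ge c 3 with h6 | h6
      · exact num_aux (by omega) (hpc.trans (show r ≤ 15 by omega)) (show c ≤ 2 by omega)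
          (by decide) hn1
      · have h7 : c = 3 := by omega
        have h8 : p = 2 := by
          by_contra hne
          have := h3c hne
          rw [h7] at this
          omega
        exact num_aux (B := 8) (by omega) (by rw [h7, h8]; norm_num) (show c ≤ 3 by omega)
          (by decide) hn1
    · -- m = 5
      have hr15 : r < 15 := by
        obtain ⟨k, hk, hlt⟩ := h.2
        have hn23 : n ≤ 23 := by omega
        rcases Nat.lt_or_ge k 5 with hk5 | hk5
        · have : k = 2 ∨ k = 3 ∨ k = 4 := by omega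
          rcases this with rfl | rfl | rfl <;> omega
        · have h9 : 2 ^ 5 ≤ 2 ^ k := Nat.pow_le_pow_right (by norm_num) hk5
          have : n / 2 ^ k = 0 := Nat.div_eq_of_lt (by omega)
          rw [this, mul_zero] at hlt
          omega
      rw [h5] at h1 hcm hn1
      have hc4 : c < 4 := by
        by_contra hcon
        have h9 : 2 ^ 4 ≤ 2 ^ c := Nat.pow_le_pow_right (by norm_num) (by omega)
        omega
      rcases Nat.lt_or_ge c 3 with h6 | h6
      · exact num_aux (by omega) (hpc.trans (show r ≤ 15 by omega)) (show c ≤ 2 by omega)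
          (by decide) hn1
      · have h7 : c = 3 := by omega
        have h8 : p = 2 := by
          by_contra hne
          have := h3c hne
          rw [h7] at this
          omega
        exact num_aux (B := 8) (by omega) (by rw [h7, h8]; norm_num) (show c ≤ 3 by omega)
          (by decide) hn1
    · -- m = 6
      rw [h5] at h1 hcm hn1 hrm
      have hc5 : c < 5 := by
        by_contra hcon
        have h9 : 2 ^ 5 ≤ 2 ^ c := Nat.pow_le_pow_right (by norm_num) (by omega)
        omega
      rcases Nat.lt_or_ge c 4 with h6 | h6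
      · exact num_aux (by omega) (hpc.trans (show r ≤ 25 by omega)) (show c ≤ 3 by omega)
          (by decide) hn1
      · have h7 : c = 4 := by omega
        have h8 : p = 2 := by
          by_contra hne
          have := h3c hne
          rw [h7] at this
          omega
        exact num_aux (B := 16) (by omega) (by rw [h7, h8]; norm_num) (show c ≤ 4 by omega)
          (by decide) hn1
    · -- m = 7
      rw [h5] at h1 hcm hn1 hrm
      have hc5 : c < 5 := by
        by_contra hcon
        have h9 : 2 ^ 5 ≤ 2 ^ c := Nat.pow_le_pow_right (by norm_num) (by omega)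
        omega
      rcases Nat.lt_or_ge c 4 with h6 | h6
      · exact num_aux (by omega) (hpc.trans (show r ≤ 29 by omega)) (show c ≤ 3 by omega)
          (by decide) hn1
      · have h7 : c = 4 := by omega
        have h8 : p = 2 := by
          by_contra hne
          have := h3c hne
          rw [h7] at this
          omega
        exact num_aux (B := 16) (by omega) (by rw [h7, h8]; norm_num) (show c ≤ 4 by omega)
          (by decide) hn1
    · -- m = 8
      rw [h5] at h1 hcm hn1 hrm
      have hc6 : c < 6 := by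
        by_contra hcon
        have h9 : 2 ^ 6 ≤ 2 ^ c := Nat.pow_le_pow_right (by norm_num) (by omega)
        omega
      exact num_aux (by omega) (hpc.trans (show r ≤ 33 by omega)) (show c ≤ 5 by omega)
        (by decide) hn1
    · -- m = 9
      rw [h5] at h1 hcm hn1 hrm
      have hc6 : c < 6 := by
        by_contra hcon
        have h9 : 2 ^ 6 ≤ 2 ^ c := Nat.pow_le_pow_right (by norm_num) (by omega)
        omega
      exact num_aux (by omega) (hpc.trans (show r ≤ 37 by omega)) (show c ≤ 5 by omega)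
        (by decide) hn1
  · -- m ≥ 10
    have h2cm : 2 * c ≤ m := by
      by_contra hcon
      have h5 : 2 ^ (m + 1) ≤ 2 ^ (2 * c) := Nat.pow_le_pow_right (by norm_num) (by omega)
      have h6 : 2 ^ (2 * c) = (2 ^ c) ^ 2 := by rw [← pow_mul, mul_comm]
      have h7 : (2 ^ c) ^ 2 ≤ (4 * m + 1) ^ 2 := Nat.pow_le_pow_left (by omega) 2
      have h8 := sq_lt_two_pow m hm10
      omega
    have h5 : p ^ (4 * c ^ 2) = (p ^ c) ^ (4 * c) := by
      rw [← pow_mul]; congr 1; ring
    have h6 : (p ^ c) ^ (4 * c) ≤ (4 * m + 1) ^ (4 * c) :=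
      Nat.pow_le_pow_left (hpc.trans hrm) _
    have h7 : (4 * m + 1) ^ (4 * c) ≤ (2 * (2 * m + 1)) ^ (4 * c) :=
      Nat.pow_le_pow_left (by omega) _
    have h8 : (2 * (2 * m + 1)) ^ (4 * c) = (2 ^ c) ^ 4 * (2 * m + 1) ^ (4 * c) := by
      rw [mul_pow, ← pow_mul, mul_comm 4 c]
    have h9 : (2 ^ c) ^ 4 ≤ (4 * m + 1) ^ 4 := Nat.pow_le_pow_left (by omega) 4
    have h10 : (2 * m + 1) ^ (4 * c) ≤ (2 * m + 1) ^ (2 * m) :=
      Nat.pow_le_pow_right (by omega) (by omega)
    have h11 := two_mul_pow_lt_fact m hm10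
    have h12 : (2 * m)! * (2 * m + 1) ^ (2 * m) ≤ (2 * m + 2 * m)! :=
      Nat.factorial_mul_pow_le_factorial
    have h13 : (2 * m + 2 * m)! ≤ n ! := Nat.factorial_le (by omega)
    rw [h5]
    calc 2 * (p ^ c) ^ (4 * c) ≤ 2 * ((2 ^ c) ^ 4 * (2 * m + 1) ^ (4 * c)) := by
          apply Nat.mul_le_mul_left
          rw [← h8]
          exact h6.trans h7
      _ ≤ 2 * ((4 * m + 1) ^ 4 * (2 * m + 1) ^ (2 * m)) :=
          Nat.mul_le_mul_left _ (Nat.mul_le_mul h9 h10)
      _ = (2 * (4 * m + 1) ^ 4) * (2 * m + 1) ^ (2 * m) := by ring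
      _ < (2 * m)! * (2 * m + 1) ^ (2 * m) := by
          apply Nat.mul_lt_mul_of_pos_right h11
          positivity
      _ ≤ _ := h12.trans h13

end Pool.Agent.H302R7
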