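import Pool.Agent.H302R7.Comm
import Pool.Agent.H302R7.Num

/-!
# Groups of extraspecial type
-/

set_option autoImplicit false
set_option linter.unusedSectionVars false

namespace Pool.Agent.H302R7

open Pool.Agent.H302R2 Pool.Agent.H302R5 Pool.Agent.H302R6

open scoped Nat

universe u

/-- A maximal commutative subgroup containing the centre. -/
lemma exists_max_comm (W : Type u) [Group W] [Finite W] :
    ∃ A : Subgroup W, Subgroup.center W ≤ A ∧ (∀ a b : A, a * b = b * a) ∧
      ∀ u : W, (∀ a ∈ A, a * u = u * a) → u ∈ A := by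
  classical
  let S : Set (Subgroup W) := {A | Subgroup.center W ≤ A ∧ A ≤ Subgroup.centralizer (A : Set W)}
  have hS : S.Nonempty := by
    refine ⟨Subgroup.center W, le_refl _, ?_⟩
    intro z hz
    rw [Subgroup.mem_centralizer_iff]
    intro w _
    exact Subgroup.mem_center_iff.mp hz w
  obtain ⟨A, hA⟩ := (Set.toFinite S).exists_maximal hS
  have hA1 : Subgroup.center W ≤ A := hA.prop.1
  have hA2 : A ≤ Subgroup.centralizer (A : Set W) := hA.prop.2
  refine ⟨A, hA1, ?_, ?_⟩
  · intro a b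
    exact Subtype.ext (Subgroup.mem_centralizer_iff.mp (hA2 b.2) a a.2)
  · intro u hu
    set B := A ⊔ Subgroup.zpowers u with hB
    have hzA : Subgroup.zpowers u ≤ Subgroup.centralizer (A : Set W) := by
      rw [Subgroup.zpowers_le, Subgroup.mem_centralizer_iff]
      exact hu
    have hzz : Subgroup.zpowers u ≤ Subgroup.centralizer (Subgroup.zpowers u : Set W) := by
      rw [Subgroup.zpowers_le, Subgroup.mem_centralizer_iff]
      rintro _ ⟨k, rfl⟩
      exact (Commute.refl u).zpow_left k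
    have h1 : B ≤ Subgroup.centralizer (A : Set W) := sup_le hA2 hzA
    have h2 : B ≤ Subgroup.centralizer (Subgroup.zpowers u : Set W) :=
      sup_le (Subgroup.le_centralizer_iff.mp hzA) hzz
    have h3 : B ≤ Subgroup.centralizer (B : Set W) :=
      sup_le (Subgroup.le_centralizer_iff.mp h1) (Subgroup.le_centralizer_iff.mp h2)
    have h4 : B ≤ A := hA.le_of_ge ⟨hA1.trans le_sup_left, h3⟩ le_sup_left
    exact h4 (le_sup_right (a := A) (Subgroup.mem_zpowers u))

theorem extra_bound {W : Type u} [Group W] [Finite W] {η : W → ℂ} (hη : IsHeilbronn η) {r : ℕ}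
    (hr : η 1 = r) (hr0 : r ≠ 0) (lam : Subgroup.center W →* ℂˣ)
    (hlam : ∀ (z : Subgroup.center W) (g : W), η (z * g) = ((lam z : ℂˣ) : ℂ) * η g)
    (hinj : Function.Injective lam)
    (hcomm : ∀ a b : W, a * b * a⁻¹ * b⁻¹ ∈ Subgroup.center W) :
    ∃ A : Subgroup W, Subgroup.center W ≤ A ∧
      Nat.card A ≤ r * Nat.card (Subgroup.center W) ∧
      Nat.card W * Nat.card (Subgroup.center W) ≤ Nat.card A ^ 2 := by
  classical
  obtain ⟨A, hZA, hcA, hmax⟩ := exists_max_comm W
  have hAn : A.Normal := by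
    constructor
    intro a ha w
    have h1 := mul_mem (hZA (hcomm w a)) ha
    have e : w * a * w⁻¹ * a⁻¹ * a = w * a * w⁻¹ := by group
    rwa [e] at h1
  have : Fintype A := Fintype.ofFinite _
  have : Fintype (Subgroup.center W) := Fintype.ofFinite _
  -- vanishing off the centre
  have hvan : ∀ u : W, u ∉ Subgroup.center W → η u = 0 := by
    intro u hu
    obtain ⟨v, hv⟩ : ∃ v, v * u ≠ u * v := by
      by_contra hcon
      push Not at hcon
      exact hu (Subgroup.mem_center_iff.mpr hcon)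
    have h1 := hlam ⟨_, hcomm v u⟩ u
    have h2 : ((⟨v * u * v⁻¹ * u⁻¹, hcomm v u⟩ : Subgroup.center W) : W) * u = v * u * v⁻¹ := by
      simp
    rw [h2, hη.conj] at h1
    have h3 : lam ⟨_, hcomm v u⟩ ≠ 1 := by
      intro h
      rw [← map_one lam] at h
      have h4 := congrArg Subtype.val (hinj h)
      have h5 : v * u * v⁻¹ * u⁻¹ = 1 := h4
      rw [mul_inv_eq_one, mul_inv_eq_iff_eq_mul] at h5
      exact hv h5
    have h4 : ((lam ⟨_, hcomm v u⟩ : ℂˣ) : ℂ) ≠ 1 := fun h => h3 (Units.ext h)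
    have h5 : (1 - ((lam ⟨_, hcomm v u⟩ : ℂˣ) : ℂ)) * η u = 0 := by
      rw [sub_mul, one_mul, ← h1, sub_self]
    rcases mul_eq_zero.mp h5 with h6 | h6
    · exact absurd (sub_eq_zero.mp h6).symm h4
    · exact h6
  obtain ⟨s, hs⟩ := (hη.comp A.subtype).comm_multiset hcA
  simp only [Subgroup.coe_subtype] at hs
  have hcard : Multiset.card s = r := by
    have h1 := hs 1
    rw [Subgroup.coe_one, hr, map_one_sum s 1 (fun ψ _ => map_one ψ)] at h1
    exact_mod_cast h1.symm
  obtain ⟨ψ, hψ⟩ : ∃ ψ, ψ ∈ s := by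
    apply Multiset.exists_mem_of_ne_zero
    rintro rfl
    simp at hcard
    exact hr0 hcard.symm
  have hcount : 1 ≤ s.count ψ := Multiset.one_le_count_iff_mem.mpr hψ
  have hAc : (Nat.card A : ℂ) ≠ 0 := by exact_mod_cast Nat.card_pos.ne'
  -- the multiplicity
  have hm : ∑ a : A, η a * (((ψ a)⁻¹ : ℂˣ) : ℂ) = (s.count ψ : ℂ) * Nat.card A := by
    have h1 := count_mult s ψ
    rw [finsum_eq_sum_of_fintype] at h1
    rw [← h1]
    exact Finset.sum_congr rfl fun a _ => by rw [hs]
  have hm0 : ∑ a : A, η a * (((ψ a)⁻¹ : ℂˣ) : ℂ) ≠ 0 := by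
    rw [hm]
    refine mul_ne_zero ?_ hAc
    exact_mod_cast (by omega : s.count ψ ≠ 0)
  -- `ψ` extends `lam`
  have hext : ∀ z : Subgroup.center W, ψ ⟨z, hZA z.2⟩ = lam z := by
    intro z
    have h1 : ∑ a : A, η a * (((ψ a)⁻¹ : ℂˣ) : ℂ)
        = ((lam z * (ψ ⟨z, hZA z.2⟩)⁻¹ : ℂˣ) : ℂ) * ∑ a : A, η a * (((ψ a)⁻¹ : ℂˣ) : ℂ) := by
      conv_lhs => rw [← Equiv.sum_comp (Equiv.mulLeft (⟨z, hZA z.2⟩ : A))]
      rw [Finset.mul_sum]
      refine Finset.sum_congr rfl fun a _ => ?_
      rw [Equiv.coe_mulLeft, Subgroup.coe_mul, map_mul, mul_inv, hlam]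
      push_cast
      ring
    have h2 : (1 - ((lam z * (ψ ⟨z, hZA z.2⟩)⁻¹ : ℂˣ) : ℂ)) *
        ∑ a : A, η a * (((ψ a)⁻¹ : ℂˣ) : ℂ) = 0 := by
      rw [sub_mul, one_mul, ← h1, sub_self]
    have h3 := (mul_eq_zero.mp h2).resolve_right hm0
    have h4 : lam z * (ψ ⟨z, hZA z.2⟩)⁻¹ = 1 := Units.ext (sub_eq_zero.mp h3).symm
    exact (mul_inv_eq_one.mp h4).symm
  -- the multiplicity computed on the centre
  have hm2 : ∑ a : A, η a * (((ψ a)⁻¹ : ℂˣ) : ℂ) = (r : ℂ) * Nat.card (Subgroup.center W) := by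
    have h1 : ∑ z : Subgroup.center W, (r : ℂ) = ∑ a : A, η a * (((ψ a)⁻¹ : ℂˣ) : ℂ) := by
      refine Fintype.sum_of_injective (fun z : Subgroup.center W => (⟨z, hZA z.2⟩ : A)) ?_ _ _ ?_ ?_
      · intro a b hab
        exact Subtype.ext (congrArg (fun x : A => (x : W)) hab)
      · intro a ha
        have h2 : (a : W) ∉ Subgroup.center W := fun h => ha ⟨⟨a, h⟩, rfl⟩
        rw [hvan _ h2, zero_mul]
      · intro z
        rw [hext z]
        have h3 := hlam z 1
        rw [mul_one, hr] at h3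
        change (r : ℂ) = η z * _
        rw [h3, Units.val_inv_eq_inv_val]
        have h4 : ((lam z : ℂˣ) : ℂ) ≠ 0 := (lam z).ne_zero
        field_simp
    rw [← h1, Finset.sum_const, Finset.card_univ, nsmul_eq_mul, ← Nat.card_eq_fintype_card]
    ring
  have hkey : s.count ψ * Nat.card A = r * Nat.card (Subgroup.center W) := by
    rw [hm] at hm2
    exact_mod_cast hm2
  have hstab : stab A ψ = A := by
    apply le_antisymm
    · intro g hg
      apply hmax
      intro a ha
      have h1 := mem_stab.mp hg ⟨a, ha⟩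
      have h2 : MulAut.conjNormal g (⟨a, ha⟩ : A)
          = ⟨_, hZA (hcomm g a)⟩ * (⟨a, ha⟩ : A) := by
        apply Subtype.ext
        rw [MulAut.conjNormal_apply, Subgroup.coe_mul]
        simp
      rw [h2, map_mul] at h1
      have h3 : ψ ⟨_, hZA (hcomm g a)⟩ = 1 := by
        have := mul_right_cancel (h1.trans (one_mul _).symm)
        exact this
      rw [hext ⟨_, hcomm g a⟩, ← map_one lam] at h3
      have h4 := congrArg Subtype.val (hinj h3)
      have h5 : g * a * g⁻¹ * a⁻¹ = 1 := h4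
      rw [mul_inv_eq_one, mul_inv_eq_iff_eq_mul] at h5
      exact h5.symm
    · intro g hg
      rw [mem_stab]
      intro a
      congr 1
      apply Subtype.ext
      rw [MulAut.conjNormal_apply]
      have := congrArg Subtype.val (hcA ⟨g, hg⟩ a)
      have h2 : g * (a : W) = a * g := this
      rw [h2, mul_inv_cancel_right]
  have hidx : A.index * s.count ψ ≤ r := by
    have h := orbit_index hη.conj A s hs ψ
    rw [hstab, hcard] at h
    exact le_of_eq_of_le (congrArg (fun d : DecidableEq (A →* ℂˣ) =>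
      A.index * @Multiset.count _ d ψ s) (Subsingleton.elim _ _)) h
  have hZpos : 0 < Nat.card (Subgroup.center W) := Nat.card_pos
  have hApos : 0 < Nat.card A := Nat.card_pos
  refine ⟨A, hZA, ?_, ?_⟩
  · rw [← hkey]
    exact Nat.le_mul_of_pos_left _ hcount
  · have h1 : Nat.card A * A.index = Nat.card W := A.card_mul_index
    have h2 : A.index * Nat.card (Subgroup.center W) ≤ Nat.card A := by
      have h3 : s.count ψ * (A.index * Nat.card (Subgroup.center W)) ≤ s.count ψ * Nat.card A := by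
        rw [hkey]
        calc s.count ψ * (A.index * Nat.card (Subgroup.center W))
            = (A.index * s.count ψ) * Nat.card (Subgroup.center W) := by ring
          _ ≤ r * Nat.card (Subgroup.center W) := Nat.mul_le_mul_right _ hidx
      exact Nat.le_of_mul_le_mul_left h3 hcount
    calc Nat.card W * Nat.card (Subgroup.center W)
        = Nat.card A * (A.index * Nat.card (Subgroup.center W)) := by rw [← h1]; ring
      _ ≤ Nat.card A * Nat.card A := Nat.mul_le_mul_left _ h2
      _ = Nat.card A ^ 2 := by ring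

/-- A group of order `p ^ e` is generated by `e` elements. -/
lemma exists_gen {X : Type*} [Group X] [Finite X] {p e : ℕ} (hp : p.Prime)
    (hcard : Nat.card X = p ^ e) :
    ∃ S : Finset X, S.card ≤ e ∧ Subgroup.closure (S : Set X) = ⊤ := by
  classical
  have key : ∀ j, ∀ K : Subgroup X, K.index = p ^ j →
      ∃ S : Finset X, S.card ≤ j ∧ K ⊔ Subgroup.closure (S : Set X) = ⊤ := by
    intro j
    induction j using Nat.strong_induction_on with
    | _ j ih =>
      intro K hK
      by_cases hKt : K = ⊤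
      · exact ⟨∅, by simp, by rw [hKt, top_sup_eq]⟩
      · obtain ⟨x, hx⟩ : ∃ x, x ∉ K := by
          by_contra hcon
          push Not at hcon
          exact hKt ((Subgroup.eq_top_iff' K).mpr hcon)
        set K' := K ⊔ Subgroup.zpowers x with hK'
        have hle : K ≤ K' := le_sup_left
        have hdvd : K'.index ∣ p ^ j := by
          rw [← hK]; exact Subgroup.index_dvd_of_le hle
        obtain ⟨i, hij, hi⟩ := (Nat.dvd_prime_pow hp).mp hdvd
        have hlt : i < j := by
          rcases Nat.lt_or_ge i j with h | h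
          · exact h
          · exfalso
            have h1 : i = j := le_antisymm hij h
            have h2 : K'.index = K.index := by rw [hi, hK, h1]
            have h3 := Subgroup.relIndex_mul_index hle
            rw [h2] at h3
            have h4 : 0 < K.index := Nat.pos_of_ne_zero Subgroup.index_ne_zero_of_finite
            have h5 : K.relIndex K' = 1 := by
              have : K.relIndex K' * K.index = 1 * K.index := by rw [h3, one_mul]
              exact Nat.eq_of_mul_eq_mul_right h4 this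
            rw [Subgroup.relIndex_eq_one] at h5
            exact hx (h5 ((le_sup_right : Subgroup.zpowers x ≤ K') (Subgroup.mem_zpowers x)))
        obtain ⟨S, hS1, hS2⟩ := ih i hlt K' hi
        refine ⟨insert x S, (Finset.card_insert_le x S).trans (by omega), ?_⟩
        rw [Finset.coe_insert, Set.insert_eq, Subgroup.closure_union, ← sup_assoc,
          ← Subgroup.zpowers_eq_closure]
        exact hS2
  obtain ⟨S, hS1, hS2⟩ := key e ⊥ (by rw [Subgroup.index_bot, hcard])
  exact ⟨S, hS1, by rwa [bot_sup_eq] at hS2⟩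

section act

variable {D : Type u} [Group D] [Finite D]

/-- the subgroup acting trivially on `U / Z` -/
def actKer (U Z : Subgroup D) [hU : U.Normal] [hZ : Z.Normal] : Subgroup D where
  carrier := {g | ∀ u ∈ U, g * u * g⁻¹ * u⁻¹ ∈ Z}
  mul_mem' := by
    intro a b ha hb u hu
    have h1 := ha _ (hU.conj_mem u hu b)
    have h2 := hb u hu
    have e : a * b * u * (a * b)⁻¹ * u⁻¹
        = (a * (b * u * b⁻¹) * a⁻¹ * (b * u * b⁻¹)⁻¹) * (b * u * b⁻¹ * u⁻¹) := by group
    rw [e]
    exact mul_mem h1 h2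
  one_mem' := by
    intro u hu
    simp
  inv_mem' := by
    intro a ha u hu
    have h1 := ha _ (hU.conj_mem u hu a⁻¹)
    have e : a⁻¹ * u * a⁻¹⁻¹ * u⁻¹ = (a * (a⁻¹ * u * a⁻¹⁻¹) * a⁻¹ * (a⁻¹ * u * a⁻¹⁻¹)⁻¹)⁻¹ := by
      group
    rw [e]
    exact inv_mem h1

lemma mem_actKer {U Z : Subgroup D} [U.Normal] [Z.Normal] {g : D} :
    g ∈ actKer U Z ↔ ∀ u ∈ U, g * u * g⁻¹ * u⁻¹ ∈ Z := Iff.rfl

instance actKer_normal (U Z : Subgroup D) [hU : U.Normal] [hZ : Z.Normal] :
    (actKer U Z).Normal where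
  conj_mem := by
    intro a ha g u hu
    have h1 := ha _ (hU.conj_mem u hu g⁻¹)
    have h2 := hZ.conj_mem _ h1 g
    have e : g * a * g⁻¹ * u * (g * a * g⁻¹)⁻¹ * u⁻¹
        = g * (a * (g⁻¹ * u * g⁻¹⁻¹) * a⁻¹ * (g⁻¹ * u * g⁻¹⁻¹)⁻¹) * g⁻¹ := by group
    rw [e]
    exact h2

/-- The quotient acting on `U / Z` is small. -/
lemma card_act_le (U Z : Subgroup D) [hU : U.Normal] [hZ : Z.Normal] {p e : ℕ} (hp : p.Prime)
    (hcard : Nat.card (U ⧸ Z.subgroupOf U) = p ^ e) :
    Nat.card (D ⧸ actKer U Z) ≤ (p ^ e) ^ e := by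
  classical
  obtain ⟨S, hS1, hS2⟩ := exists_gen hp hcard
  let X := U ⧸ Z.subgroupOf U
  let E : D → (U →* X) := fun g =>
    (QuotientGroup.mk' (Z.subgroupOf U)).comp (MulAut.conjNormal g : U ≃* U).toMonoidHom
  have hE : ∀ (g : D) (u : U), E g u = QuotientGroup.mk (MulAut.conjNormal g u) := fun g u => rfl
  let F : D ⧸ actKer U Z → (S → X) := fun c x => E c.out (x : X).out
  have hF : Function.Injective F := by
    intro a b hab
    rw [← QuotientGroup.out_eq' a, ← QuotientGroup.out_eq' b, QuotientGroup.eq]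
    -- the equalizer
    have hEZ : ∀ (g : D), ∀ z ∈ Z.subgroupOf U, E g z = 1 := by
      intro g z hz
      rw [hE, QuotientGroup.eq_one_iff, Subgroup.mem_subgroupOf, MulAut.conjNormal_apply]
      exact hZ.conj_mem _ hz g
    have heq : ∀ u : U, E a.out u = E b.out u := by
      let K : Subgroup U := (E a.out).eqLocus (E b.out)
      have hZK : Z.subgroupOf U ≤ K := by
        intro z hz
        change E a.out z = E b.out z
        rw [hEZ _ z hz, hEZ _ z hz]
      have hSK : Subgroup.closure (S : Set X) ≤ K.map (QuotientGroup.mk' (Z.subgroupOf U)) := by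
        rw [Subgroup.closure_le]
        intro x hx
        refine ⟨x.out, ?_, ?_⟩
        · change E a.out x.out = E b.out x.out
          exact congrFun hab ⟨x, hx⟩
        · exact QuotientGroup.out_eq' x
      rw [hS2] at hSK
      intro u
      obtain ⟨k, hk, hku⟩ := hSK (Subgroup.mem_top (QuotientGroup.mk u : X))
      have h1 : k⁻¹ * u ∈ Z.subgroupOf U := by
        rw [← QuotientGroup.eq]
        exact hku
      have h2 := mul_mem hk (hZK h1)
      rw [mul_inv_cancel_left] at h2
      exact h2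
    rw [mem_actKer]
    intro u hu
    have h1 := heq ⟨u, hu⟩
    rw [hE, hE, QuotientGroup.eq, Subgroup.mem_subgroupOf, Subgroup.coe_mul, Subgroup.coe_inv,
      MulAut.conjNormal_apply, MulAut.conjNormal_apply] at h1
    have h2 := hZ.conj_mem _ h1 (u * (a.out)⁻¹)
    have e : a.out⁻¹ * b.out * u * (a.out⁻¹ * b.out)⁻¹ * u⁻¹
        = u * a.out⁻¹ * ((a.out * u * a.out⁻¹)⁻¹ * (b.out * u * b.out⁻¹)) * (u * a.out⁻¹)⁻¹ := by
      group
    rw [e]
    exact h2
  have h1 := Nat.card_le_card_of_injective F hF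
  rw [Nat.card_fun, Nat.card_eq_fintype_card (α := S), Fintype.card_coe, hcard] at h1
  exact h1.trans (Nat.pow_le_pow_right (pow_pos hp.pos _) hS1)

/-- **Case A.** -/
theorem case_a {r : ℕ} (hr2 : 2 ≤ r) (hperf : commutator D = ⊤) (hch : Chn r (⊤ : Subgroup D))
    {η : D → ℂ} (hη : IsHeilbronn η) {r' : ℕ} (hr' : r' ≤ r) (h1 : η 1 = r') (h0 : r' ≠ 0)
    (Z : Subgroup D) (hZ : Z = Subgroup.center D) (lam : Z →* ℂˣ)
    (hlam : ∀ (z : Z) (g : D), η (z * g) = ((lam z : ℂˣ) : ℂ) * η g)
    (hinj : Function.Injective lam) (U : Subgroup D) [hU : U.Normal]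
    (hUZ : ¬ U ≤ Z) (hcomm : ∀ a ∈ U, ∀ b ∈ U, a * b * a⁻¹ * b⁻¹ ∈ Z)
    (hcent : ∀ u ∈ U, (∀ v ∈ U, v * u = u * v) → u ∈ Z) {p : ℕ} (hp : p.Prime)
    (hpow : ∀ u ∈ U, u ^ p ∈ Z) : False := by
  classical
  have hmem : ∀ {z : D}, z ∈ Z → ∀ g, g * z = z * g := by
    intro z hz g
    rw [hZ] at hz
    exact Subgroup.mem_center_iff.mp hz g
  have hmemW : ∀ z : U, z ∈ Subgroup.center U ↔ (z : D) ∈ Z := by
    intro z
    constructor
    · intro hz
      apply hcent z z.2
      intro v hv
      exact congrArg Subtype.val (Subgroup.mem_center_iff.mp hz ⟨v, hv⟩)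
    · intro hz
      rw [Subgroup.mem_center_iff]
      intro v
      exact Subtype.ext (hmem hz v)
  have hcenter : Subgroup.center U = Z.subgroupOf U := by
    ext z
    rw [hmemW, Subgroup.mem_subgroupOf]
  let j : Subgroup.center U →* Z :=
    { toFun := fun z => ⟨((z : U) : D), (hmemW z).mp z.2⟩
      map_one' := rfl
      map_mul' := fun _ _ => rfl }
  have hj : Function.Injective j := by
    intro a b hab
    exact Subtype.ext (Subtype.ext (congrArg (fun z : Z => (z : D)) hab))
  obtain ⟨A, hZA, hA1, hA2⟩ := extra_bound (hη.comp U.subtype) (r := r') h1 h0 (lam.comp j)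
    (fun z g => hlam (j z) g) (hinj.comp hj)
    (fun a b => (hmemW _).mpr (hcomm a a.2 b b.2))
  -- `U / Z` is a `p`-group
  have : Fact p.Prime := ⟨hp⟩
  have hpg : IsPGroup p (U ⧸ Subgroup.center U) := by
    intro x
    refine ⟨1, ?_⟩
    induction x using QuotientGroup.induction_on with | _ x => ?_
    rw [pow_one, ← QuotientGroup.mk_pow, QuotientGroup.eq_one_iff, hmemW]
    exact hpow x x.2
  obtain ⟨e, he⟩ := IsPGroup.iff_card.mp hpg
  have hidx : (Subgroup.center U).index = p ^ e := he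
  have hrel : (Subgroup.center U).relIndex A ∣ p ^ e := by
    rw [← hidx]
    exact Subgroup.relIndex_dvd_index_of_le hZA
  obtain ⟨c, -, hc⟩ := (Nat.dvd_prime_pow hp).mp hrel
  have hcA : Nat.card (Subgroup.center U) * p ^ c = Nat.card A := by
    rw [← hc, ← Nat.card_congr (Subgroup.subgroupOfEquivOfLe hZA).toEquiv]
    exact Subgroup.card_mul_index _
  have hcW : Nat.card (Subgroup.center U) * p ^ e = Nat.card U := by
    rw [← hidx]
    exact Subgroup.card_mul_index _
  have hzpos : 0 < Nat.card (Subgroup.center U) := Nat.card_pos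
  have hpc : p ^ c ≤ r := by
    rw [← hcA, mul_comm r'] at hA1
    exact (Nat.le_of_mul_le_mul_left hA1 hzpos).trans hr'
  have hec : e ≤ 2 * c := by
    have h2 : p ^ e ≤ p ^ (2 * c) := by
      rw [← hcA, ← hcW] at hA2
      have h3 : (Nat.card (Subgroup.center U)) ^ 2 * p ^ e
          ≤ (Nat.card (Subgroup.center U)) ^ 2 * p ^ (2 * c) := by
        calc (Nat.card (Subgroup.center U)) ^ 2 * p ^ e
            = Nat.card (Subgroup.center U) * p ^ e * Nat.card (Subgroup.center U) := by ring
          _ ≤ (Nat.card (Subgroup.center U) * p ^ c) ^ 2 := hA2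
          _ = _ := by ring
      exact Nat.le_of_mul_le_mul_left h3 (by positivity)
    exact (Nat.pow_le_pow_iff_right hp.one_lt).mp h2
  have hZn : Z.Normal := by rw [hZ]; infer_instance
  -- the action is nontrivial
  have hC : actKer U Z ≠ ⊤ := by
    intro htop
    apply hUZ
    intro u hu
    have hg : ∀ g : D, g * u * g⁻¹ * u⁻¹ ∈ Z := by
      intro g
      have : g ∈ actKer U Z := by rw [htop]; exact Subgroup.mem_top g
      exact mem_actKer.mp this u hu
    have hZc : ∀ a b : Z, a * b = b * a := fun a b => Subtype.ext (hmem b.2 a)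
    let _ : CommGroup Z := { (inferInstance : Group Z) with mul_comm := hZc }
    let f₀ : D →* Z :=
      { toFun := fun g => ⟨g * u * g⁻¹ * u⁻¹, hg g⟩
        map_one' := by apply Subtype.ext; simp
        map_mul' := by
          intro a b
          apply Subtype.ext
          change a * b * u * (a * b)⁻¹ * u⁻¹ = (a * u * a⁻¹ * u⁻¹) * (b * u * b⁻¹ * u⁻¹)
          have h2 := hmem (hg b) a
          have h3 := hmem (hg b) (a * u * a⁻¹ * u⁻¹)
          rw [h3]
          have e1 : a * b * u * (a * b)⁻¹ * u⁻¹ = (a * (b * u * b⁻¹ * u⁻¹)) * u * a⁻¹ * u⁻¹ := by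
            group
          rw [e1, h2]
          simp only [mul_assoc] }
    rw [hZ, Subgroup.mem_center_iff]
    intro g
    have h4 := hom_trivial hperf f₀ g
    have h5 : g * u * g⁻¹ * u⁻¹ = 1 := congrArg (fun z : Z => (z : D)) h4
    rw [mul_inv_eq_one, mul_inv_eq_iff_eq_mul] at h5
    exact h5
  obtain ⟨n, hn, hbig⟩ := big_quotient hr2 hperf hch (actKer U Z) hC
  have h2 := card_act_le U Z hp (by rw [← hcenter]; exact he)
  have h3 : (p ^ e) ^ e ≤ p ^ (4 * c ^ 2) := by
    rw [← pow_mul]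
    apply Nat.pow_le_pow_right hp.pos
    calc e * e ≤ (2 * c) * (2 * c) := Nat.mul_le_mul hec hec
      _ = 4 * c ^ 2 := by ring
  have h4 := num_ineq hr2 hn hp.two_le hpc
  omega

end act

end Pool.Agent.H302R7
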