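import Pool.Agent.H302R7.Comm
import Pool.Agent.H302R7.Block
import Pool.Agent.H302R7.Cl

/-!
# Central extensions of alternating groups: block translations
-/

set_option autoImplicit false
set_option linter.unusedSectionVars false

namespace Pool.Agent.H302R7

open Pool.Agent.H302R2 Pool.Agent.H302R5 Pool.Agent.H302R6 Equiv Equiv.Perm

universe u

/-- commutator -/
def kap {D : Type u} [Group D] (d e : D) : D := d * e * d⁻¹ * e⁻¹

section kap

variable {D : Type u} [Group D]

lemma kap_mul_left {d d' e : D} (h : ∀ g, g * kap d' e = kap d' e * g) :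
    kap (d * d') e = kap d e * kap d' e := by
  have h1 := h (kap d e)
  rw [h1]
  have h2 := h d
  have e1 : kap (d * d') e = (d * kap d' e) * e * d⁻¹ * e⁻¹ := by
    unfold kap; group
  rw [e1, h2]
  unfold kap
  group

lemma kap_inv (d e : D) : (kap d e)⁻¹ = kap e d := by
  unfold kap; group

lemma kap_conj (g d e : D) : kap (g * d * g⁻¹) (g * e * g⁻¹) = g * kap d e * g⁻¹ := by
  unfold kap; group

lemma kap_congr {d d' e e' : D} (hd : ∀ g, g * (d' * d⁻¹) = d' * d⁻¹ * g)
    (he : ∀ g, g * (e' * e⁻¹) = e' * e⁻¹ * g) : kap d' e' = kap d e := by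
  have h1 : d' = (d' * d⁻¹) * d := by group
  have h2 : e' = (e' * e⁻¹) * e := by group
  set z := d' * d⁻¹ with hz
  set w := e' * e⁻¹ with hw
  rw [h1, h2]
  unfold kap
  have hzc : ∀ g : D, Commute z g := fun g => (hd g).symm
  have hwc : ∀ g : D, Commute w g := fun g => (he g).symm
  calc z * d * (w * e) * (z * d)⁻¹ * (w * e)⁻¹
      = z * (d * w) * e * d⁻¹ * z⁻¹ * e⁻¹ * w⁻¹ := by group
    _ = z * (w * d) * e * d⁻¹ * z⁻¹ * e⁻¹ * w⁻¹ := by rw [he d]
    _ = (z * w) * (d * e * d⁻¹) * z⁻¹ * e⁻¹ * w⁻¹ := by group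
    _ = (w * z) * (d * e * d⁻¹) * z⁻¹ * e⁻¹ * w⁻¹ := by rw [(hzc w).eq]
    _ = w * (z * (d * e * d⁻¹)) * z⁻¹ * e⁻¹ * w⁻¹ := by group
    _ = w * ((d * e * d⁻¹) * z) * z⁻¹ * e⁻¹ * w⁻¹ := by rw [(hzc (d * e * d⁻¹)).eq]
    _ = w * (d * e * d⁻¹ * e⁻¹) * w⁻¹ := by group
    _ = d * e * d⁻¹ * e⁻¹ := by rw [(hwc _).eq]; group

end kap

section vanish

variable {D : Type u} [Group D] [Finite D] {η : D → ℂ}

/-- A commutative subgroup on which `η` vanishes off the centre is small. -/
theorem card_le_of_vanish (hη : IsHeilbronn η) {r : ℕ}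
    (hr : η 1 = r) (hr0 : r ≠ 0) (Z : Subgroup D) (lam : Z →* ℂˣ)
    (hlam : ∀ (z : Z) (g : D), η (z * g) = ((lam z : ℂˣ) : ℂ) * η g)
    (A : Subgroup D) (hZA : Z ≤ A) (hcA : ∀ a b : A, a * b = b * a)
    (hvan : ∀ a ∈ A, a ∉ Z → η a = 0) : Nat.card A ≤ r * Nat.card Z := by
  classical
  have : Fintype A := Fintype.ofFinite _
  have : Fintype Z := Fintype.ofFinite _
  obtain ⟨s, hs⟩ := (hη.comp A.subtype).comm_multiset hcA
  simp only [Subgroup.coe_subtype] at hs
  have hcard : Multiset.card s = r := by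
    have h1 := hs 1
    rw [Subgroup.coe_one, hr, map_one_sum s 1 (fun ψ _ => map_one ψ)] at h1
    exact_mod_cast h1.symm
  obtain ⟨ψ, hψ⟩ : ∃ ψ, ψ ∈ s := by
    apply Multiset.exists_mem_of_ne_zero
    rintro rfl
    simp at hcard
    exact hr0 hcard.symm
  have hcount : 1 ≤ s.count ψ := Multiset.one_le_count_iff_mem.mpr hψ
  have hAc : (Nat.card A : ℂ) ≠ 0 := by exact_mod_cast Nat.card_pos.ne'
  have hm : ∑ a : A, η a * (((ψ a)⁻¹ : ℂˣ) : ℂ) = (s.count ψ : ℂ) * Nat.card A := by
    have h1 := count_mult s ψ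
    rw [finsum_eq_sum_of_fintype] at h1
    rw [← h1]
    exact Finset.sum_congr rfl fun a _ => by rw [hs]
  have hm0 : ∑ a : A, η a * (((ψ a)⁻¹ : ℂˣ) : ℂ) ≠ 0 := by
    rw [hm]
    refine mul_ne_zero ?_ hAc
    exact_mod_cast (by omega : s.count ψ ≠ 0)
  have hext : ∀ z : Z, ψ ⟨z, hZA z.2⟩ = lam z := by
    intro z
    have h1 : ∑ a : A, η a * (((ψ a)⁻¹ : ℂˣ) : ℂ)
        = ((lam z * (ψ ⟨z, hZA z.2⟩)⁻¹ : ℂˣ) : ℂ) * ∑ a : A, η a * (((ψ a)⁻¹ : ℂˣ) : ℂ) := by
      conv_lhs => rw [← Equiv.sum_comp (Equiv.mulLeft (⟨z, hZA z.2⟩ : A))]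
      rw [Finset.mul_sum]
      refine Finset.sum_congr rfl fun a _ => ?_
      rw [Equiv.coe_mulLeft, Subgroup.coe_mul, map_mul, mul_inv, hlam]
      push_cast
      ring
    have h2 : (1 - ((lam z * (ψ ⟨z, hZA z.2⟩)⁻¹ : ℂˣ) : ℂ)) *
        ∑ a : A, η a * (((ψ a)⁻¹ : ℂˣ) : ℂ) = 0 := by
      rw [sub_mul, one_mul, ← h1, sub_self]
    have h3 := (mul_eq_zero.mp h2).resolve_right hm0
    have h4 : lam z * (ψ ⟨z, hZA z.2⟩)⁻¹ = 1 := Units.ext (sub_eq_zero.mp h3).symm
    exact (mul_inv_eq_one.mp h4).symm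
  have hm2 : ∑ a : A, η a * (((ψ a)⁻¹ : ℂˣ) : ℂ) = (r : ℂ) * Nat.card Z := by
    have h1 : ∑ z : Z, (r : ℂ) = ∑ a : A, η a * (((ψ a)⁻¹ : ℂˣ) : ℂ) := by
      refine Fintype.sum_of_injective (fun z : Z => (⟨z, hZA z.2⟩ : A)) ?_ _ _ ?_ ?_
      · intro a b hab
        exact Subtype.ext (congrArg (fun x : A => (x : D)) hab)
      · intro a ha
        have h2 : (a : D) ∉ Z := fun h => ha ⟨⟨a, h⟩, rfl⟩
        rw [hvan _ a.2 h2, zero_mul]
      · intro z
        rw [hext z]
        have h3 := hlam z 1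
        rw [mul_one, hr] at h3
        change (r : ℂ) = η z * _
        rw [h3, Units.val_inv_eq_inv_val]
        have h4 : ((lam z : ℂˣ) : ℂ) ≠ 0 := (lam z).ne_zero
        field_simp
    rw [← h1, Finset.sum_const, Finset.card_univ, nsmul_eq_mul, ← Nat.card_eq_fintype_card]
    ring
  have hkey : s.count ψ * Nat.card A = r * Nat.card Z := by
    rw [hm] at hm2
    exact_mod_cast hm2
  rw [← hkey]
  exact Nat.le_mul_of_pos_left _ hcount

end vanish

/-- An element `w ≠ 0, -1` of a large field which is not a primitive cube root of unity. -/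
lemma exists_good {F : Type} [Field F] [Fintype F] [DecidableEq F] (hF : 5 ≤ Fintype.card F) :
    ∃ w : F, w ≠ 0 ∧ 1 + w ≠ 0 ∧ w ^ 2 + w + 1 ≠ 0 := by
  have hex : ∀ S : Finset F, S.card ≤ 4 → ∃ w, w ∉ S := by
    intro S hS
    by_contra hcon
    push Not at hcon
    have h1 : (Finset.univ : Finset F) ⊆ S := fun w _ => hcon w
    have h2 := Finset.card_le_card h1
    rw [Finset.card_univ] at h2
    omega
  obtain ⟨w, hw⟩ := hex {0, -1} (Finset.card_le_two.trans (by norm_num))
  simp only [Finset.mem_insert, Finset.mem_singleton, not_or] at hw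
  have hw1 : 1 + w ≠ 0 := fun h => hw.2 (by linear_combination h)
  by_cases h : w ^ 2 + w + 1 = 0
  · obtain ⟨v, hv⟩ := hex {0, -1, w, -1 - w} Finset.card_le_four
    simp only [Finset.mem_insert, Finset.mem_singleton, not_or] at hv
    have hv1 : 1 + v ≠ 0 := fun h => hv.2.1 (by linear_combination h)
    refine ⟨v, hv.1, hv1, fun h2 => ?_⟩
    have h3 : (v - w) * (v + w + 1) = 0 := by linear_combination h2 - h
    rcases mul_eq_zero.mp h3 with h4 | h4
    · exact hv.2.2.1 (sub_eq_zero.mp h4)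
    · exact hv.2.2.2 (by linear_combination h4)
  · exact ⟨w, hw.1, hw1, h⟩

/-- The monomial action. -/
def Tm {F : Type} [Field F] {m : ℕ} (u : Fin m → Fˣ) (σ : Perm (Fin m)) (a : Fin m → F) :
    Fin m → F := fun i => ((u i)⁻¹ : Fˣ) * a (σ i)

/-- A group mapping onto an alternating group with central kernel, and blocks. -/
structure Setup (D : Type u) [Group D] (n m : ℕ) (F : Type) [Field F] [Fintype F]
    [DecidableEq F] where
  π : D →* alternatingGroup (Fin n)
  surj : Function.Surjective π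
  cen : ∀ d, π d = 1 → ∀ g, g * d = d * g
  hF : 4 ≤ Fintype.card F
  hFe : Even (Fintype.card F)
  f : Fin m × F ↪ Fin n

namespace Setup

variable {D : Type u} [Group D] {n m : ℕ} {F : Type} [Field F] [Fintype F] [DecidableEq F]
  (S : Setup D n m F)

/-- the translations -/
noncomputable def E (a : Fin m → F) : alternatingGroup (Fin n) :=
  blockHom S.hF S.f (Multiplicative.ofAdd a)

lemma E_add (a b : Fin m → F) : S.E (a + b) = S.E a * S.E b := by
  unfold E
  rw [ofAdd_add, map_mul]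

lemma E_zero : S.E 0 = 1 := by
  unfold E
  rw [ofAdd_zero, map_one]

lemma E_comm (a b : Fin m → F) : S.E a * S.E b = S.E b * S.E a := by
  rw [← E_add, ← E_add, add_comm]

lemma E_injective : Function.Injective S.E := by
  intro a b hab
  have h1 : viaEmbeddingHom S.f (trans m F (Multiplicative.ofAdd a))
      = viaEmbeddingHom S.f (trans m F (Multiplicative.ofAdd b)) := congrArg Subtype.val hab
  have h2 := viaEmbeddingHom_injective S.f h1
  funext i
  have h3 := congrArg (fun π : Perm (Fin m × F) => (π (i, 0)).2) h2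
  simpa [Pool.Agent.H302R2.trans] using h3

/-- a lift of a translation -/
noncomputable def L (a : Fin m → F) : D := Function.surjInv S.surj (S.E a)

lemma π_L (a : Fin m → F) : S.π (S.L a) = S.E a := Function.surjInv_eq S.surj _

/-- the commutator pairing -/
noncomputable def B (a b : Fin m → F) : D := kap (S.L a) (S.L b)

lemma B_eq {d e : D} {a b : Fin m → F} (hd : S.π d = S.E a) (he : S.π e = S.E b) :
    kap d e = S.B a b := by
  unfold B
  apply kap_congr
  · apply S.cen
    rw [map_mul, map_inv, hd, π_L, mul_inv_cancel]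
  · apply S.cen
    rw [map_mul, map_inv, he, π_L, mul_inv_cancel]

lemma B_central (a b : Fin m → F) (g : D) : g * S.B a b = S.B a b * g := by
  apply S.cen
  unfold B kap
  rw [map_mul, map_mul, map_mul, map_inv, map_inv, π_L, π_L, E_comm, mul_inv_cancel_right,
    mul_inv_cancel]

lemma π_B (a b : Fin m → F) : S.π (S.B a b) = 1 := by
  unfold B kap
  rw [map_mul, map_mul, map_mul, map_inv, map_inv, π_L, π_L, E_comm, mul_inv_cancel_right,
    mul_inv_cancel]

lemma B_add_left (a a' b : Fin m → F) : S.B (a + a') b = S.B a b * S.B a' b := by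
  have h1 : kap (S.L a * S.L a') (S.L b) = S.B (a + a') b :=
    S.B_eq (by rw [map_mul, π_L, π_L, E_add]) (S.π_L b)
  rw [← h1, kap_mul_left (S.B_central a' b)]
  rfl

lemma B_symm (a b : Fin m → F) : (S.B a b)⁻¹ = S.B b a := kap_inv _ _

lemma B_add_right (a b b' : Fin m → F) : S.B a (b + b') = S.B a b * S.B a b' := by
  rw [← B_symm, B_add_left, mul_inv_rev, B_symm, B_symm, B_central]

lemma B_self (a : Fin m → F) : S.B a a = 1 := by
  unfold B kap; group

lemma B_zero_left (b : Fin m → F) : S.B 0 b = 1 := by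
  have h1 := S.B_add_left 0 0 b
  rw [add_zero] at h1
  exact (mul_eq_left.mp h1.symm)

lemma B_zero_right (a : Fin m → F) : S.B a 0 = 1 := by
  rw [← B_symm, B_zero_left, inv_one]

/-- a monomial permutation in the alternating group -/
noncomputable def M (u : Fin m → Fˣ) (σ : Perm (Fin m)) : alternatingGroup (Fin n) :=
  ⟨viaEmbeddingHom S.f (mono u σ), by
    rw [mem_alternatingGroup, viaEmb_sign, sign_mono S.hFe]⟩

lemma M_conj (u : Fin m → Fˣ) (σ : Perm (Fin m)) (a : Fin m → F) :
    S.M u σ * S.E (Tm u σ a) * (S.M u σ)⁻¹ = S.E a := by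
  apply Subtype.ext
  change viaEmbeddingHom S.f (mono u σ) * viaEmbeddingHom S.f (trans m F _) *
    (viaEmbeddingHom S.f (mono u σ))⁻¹ = viaEmbeddingHom S.f (trans m F _)
  rw [← map_inv, ← map_mul, ← map_mul]
  congr 1
  exact mono_conj u σ a

lemma B_mono (u : Fin m → Fˣ) (σ : Perm (Fin m)) (a b : Fin m → F) :
    S.B (Tm u σ a) (Tm u σ b) = S.B a b := by
  obtain ⟨h, hh⟩ := S.surj (S.M u σ)
  have h1 : kap (h * S.L (Tm u σ a) * h⁻¹) (h * S.L (Tm u σ b) * h⁻¹) = S.B a b := by
    apply S.B_eq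
    · rw [map_mul, map_mul, map_inv, hh, π_L, M_conj]
    · rw [map_mul, map_mul, map_inv, hh, π_L, M_conj]
  rw [← h1, kap_conj]
  have h2 := S.B_central (Tm u σ a) (Tm u σ b) h
  change _ = h * S.B (Tm u σ a) (Tm u σ b) * h⁻¹
  rw [h2, mul_inv_cancel_right]

lemma Tm_single (u : Fin m → Fˣ) (σ : Perm (Fin m)) (i : Fin m) (x : F) :
    Tm u σ (Pi.single (σ i) x) = Pi.single i (((u i)⁻¹ : Fˣ) * x) := by
  funext j
  unfold Tm
  by_cases h : j = i
  · subst h; simp
  · have h2 : σ j ≠ σ i := fun h' => h (σ.injective h')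
    rw [Pi.single_eq_of_ne h2, Pi.single_eq_of_ne h, mul_zero]

lemma exists_unit (hF : 4 ≤ Fintype.card F) : ∃ u : Fˣ, (u : F) ≠ 1 := by
  have h1 : ∃ w : F, w ∉ ({0, 1} : Finset F) := by
    by_contra hcon
    push Not at hcon
    have h1 : (Finset.univ : Finset F) ⊆ {0, 1} := fun w _ => hcon w
    have h2 := Finset.card_le_card h1
    rw [Finset.card_univ] at h2
    have h3 := Finset.card_le_two (a := (0 : F)) (b := 1)
    omega
  obtain ⟨w, hw⟩ := h1
  simp only [Finset.mem_insert, Finset.mem_singleton, not_or] at hw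
  exact ⟨Units.mk0 w hw.1, hw.2⟩

lemma B_cross {i j : Fin m} (hij : i ≠ j) (x y : F) :
    S.B (Pi.single i x) (Pi.single j y) = 1 := by
  classical
  obtain ⟨u₀, hu₀⟩ := exists_unit S.hF
  have hu1 : ((u₀⁻¹ : Fˣ) : F) - 1 ≠ 0 := by
    intro h
    apply hu₀
    have h1 : ((u₀⁻¹ : Fˣ) : F) = 1 := sub_eq_zero.mp h
    have h2 : u₀⁻¹ = 1 := Units.ext h1
    rw [inv_eq_one] at h2
    rw [h2]; rfl
  set c := (((u₀⁻¹ : Fˣ) : F) - 1)⁻¹ * x with hc
  let u : Fin m → Fˣ := Function.update 1 i u₀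
  have h1 := S.B_mono u 1 (Pi.single i c) (Pi.single j y)
  have e1 : Tm u 1 (Pi.single i c) = Pi.single i (((u₀⁻¹ : Fˣ) : F) * c) := by
    have := Tm_single u 1 i c
    simpa [u] using this
  have e2 : Tm u 1 (Pi.single j y) = Pi.single j y := by
    have := Tm_single u 1 j y
    simpa [u, Function.update_of_ne hij.symm] using this
  rw [e1, e2] at h1
  have h2 : (Pi.single i (((u₀⁻¹ : Fˣ) : F) * c) : Fin m → F) = Pi.single i c + Pi.single i x := by
    rw [← Pi.single_add]
    congr 1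
    rw [hc]
    field_simp
    ring
  rw [h2, B_add_left] at h1
  exact mul_eq_left.mp h1

/-- bilinear extension -/
lemma B_single_right (b : Fin m → F) (i : Fin m) (x : F) :
    S.B (Pi.single i x) b = S.B (Pi.single i x) (Pi.single i (b i)) := by
  classical
  let A : AddSubmonoid (Fin m → F) :=
    { carrier := {b | S.B (Pi.single i x) b = S.B (Pi.single i x) (Pi.single i (b i))}
      zero_mem' := by
        change S.B (Pi.single i x) 0 = S.B (Pi.single i x) (Pi.single i ((0 : Fin m → F) i))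
        rw [Pi.zero_apply, Pi.single_zero]
      add_mem' := by
        intro b c hb hc
        change S.B (Pi.single i x) (b + c) = S.B (Pi.single i x) (Pi.single i ((b + c) i))
        rw [B_add_right, Pi.add_apply, Pi.single_add, B_add_right]
        rw [show S.B (Pi.single i x) b = S.B (Pi.single i x) (Pi.single i (b i)) from hb,
          show S.B (Pi.single i x) c = S.B (Pi.single i x) (Pi.single i (c i)) from hc] }
  have h1 : b = ∑ j, Pi.single j (b j) := (Finset.univ_sum_single b).symm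
  have h2 : b ∈ A := by
    rw [h1]
    refine sum_mem fun j _ => ?_
    change S.B (Pi.single i x) (Pi.single j (b j))
      = S.B (Pi.single i x) (Pi.single i ((Pi.single j (b j) : Fin m → F) i))
    by_cases hij : i = j
    · subst hij; simp
    · rw [S.B_cross hij, Pi.single_eq_of_ne hij, Pi.single_zero, B_zero_right]
  exact h2

lemma B_trivial (h : ∀ i x y, S.B (Pi.single i x) (Pi.single i y) = 1) (a b : Fin m → F) :
    S.B a b = 1 := by
  classical
  let A : AddSubmonoid (Fin m → F) :=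
    { carrier := {a | S.B a b = 1}
      zero_mem' := S.B_zero_left b
      add_mem' := by
        intro a c ha hc
        change S.B (a + c) b = 1
        rw [B_add_left, show S.B a b = 1 from ha, show S.B c b = 1 from hc, one_mul] }
  have h2 : a ∈ A := by
    rw [(Finset.univ_sum_single a).symm]
    refine sum_mem fun j _ => ?_
    change S.B (Pi.single j (a j)) b = 1
    rw [B_single_right, h]
  exact h2

/-- large fields: the lifts commute -/
lemma B_same (hF : 5 ≤ Fintype.card F) (i : Fin m) (x y : F) :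
    S.B (Pi.single i x) (Pi.single i y) = 1 := by
  classical
  have hinv : ∀ (v : Fˣ) (x y : F), S.B (Pi.single i ((v : F) * x)) (Pi.single i ((v : F) * y))
      = S.B (Pi.single i x) (Pi.single i y) := by
    intro v x y
    have h1 := S.B_mono (fun _ => v⁻¹) 1 (Pi.single i x) (Pi.single i y)
    have e1 : ∀ z : F, Tm (fun _ : Fin m => v⁻¹) 1 (Pi.single i z) = Pi.single i ((v : F) * z) := by
      intro z
      have := Tm_single (fun _ : Fin m => v⁻¹) 1 i z
      simpa using this
    rwa [e1, e1] at h1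
  have hdiv : ∀ (x y : F), x ≠ 0 → S.B (Pi.single i x) (Pi.single i y)
      = S.B (Pi.single i 1) (Pi.single i (y / x)) := by
    intro x y hx
    have h1 := hinv (Units.mk0 x hx) 1 (y / x)
    rw [Units.val_mk0, mul_one, mul_div_cancel₀ _ hx] at h1
    exact h1
  obtain ⟨w, hw0, hw1, hw⟩ := exists_good hF
  have hkey : ∀ y : F, S.B (Pi.single i 1) (Pi.single i (y / (1 + w)))
      = S.B (Pi.single i 1) (Pi.single i (y + y / w)) := by
    intro y
    rw [← hdiv (1 + w) y hw1, Pi.single_add, B_add_left, hdiv w y hw0, ← B_add_right,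
      ← Pi.single_add]
  have hone : ∀ y : F, S.B (Pi.single i 1) (Pi.single i y) = 1 := by
    intro y
    set c : F := 1 / (1 + w) - (1 + 1 / w) with hc
    have hc0 : c ≠ 0 := by
      have : c = -(w ^ 2 + w + 1) / (w * (1 + w)) := by
        rw [hc]; field_simp; ring
      rw [this]
      exact div_ne_zero (neg_ne_zero.mpr hw) (mul_ne_zero hw0 hw1)
    have h1 := hkey (y / c)
    have h2 : y / c / (1 + w) = y + (y / c + y / c / w) := by
      have h3 : y = c * (y / c) := by field_simp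
      calc y / c / (1 + w) = (c + (1 + 1 / w)) * (y / c) := by rw [hc]; ring
        _ = c * (y / c) + (y / c + y / c / w) := by ring
        _ = _ := by rw [← h3]
    rw [h2, Pi.single_add, B_add_right] at h1
    exact mul_eq_right.mp h1
  by_cases hx : x = 0
  · subst hx
    rw [Pi.single_zero, B_zero_left]
  · rw [hdiv x y hx, hone]

end Setup

end Pool.Agent.H302R7
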