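import Pool.Agent.H302R7.CaseB

/-!
# Central extensions of alternating groups: the two alternatives
-/

set_option autoImplicit false
set_option linter.unusedSectionVars false

namespace Pool.Agent.H302R7

open Pool.Agent.H302R2 Pool.Agent.H302R5 Pool.Agent.H302R6 Equiv Equiv.Perm

universe u

namespace Setup

variable {D : Type u} [Group D] {n m : ℕ} {F : Type} [Field F] [Fintype F] [DecidableEq F]
  (S : Setup D n m F)

lemma B_expand {a b : Fin m → F} (h : ∀ i, S.B (Pi.single i (a i)) (Pi.single i (b i)) = 1) :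
    S.B a b = 1 := by
  classical
  have key : ∀ s : Finset (Fin m), S.B (∑ j ∈ s, Pi.single j (a j)) b = 1 := by
    intro s
    induction s using Finset.induction_on with
    | empty => rw [Finset.sum_empty, B_zero_left]
    | insert j s hj ih =>
      rw [Finset.sum_insert hj, B_add_left, ih, B_single_right, h, one_mul]
  have := key Finset.univ
  rwa [Finset.univ_sum_single] at this

lemma E_neg (a : Fin m → F) : S.E (-a) = (S.E a)⁻¹ := by
  rw [eq_inv_iff_mul_eq_one, ← E_add, neg_add_cancel, E_zero]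

lemma E_sub (a b : Fin m → F) : S.E (a - b) = S.E a * (S.E b)⁻¹ := by
  rw [sub_eq_add_neg, E_add, E_neg]

/-- **Noncommuting lifts.** -/
theorem bound_of_nontrivial [Finite D] {η : D → ℂ} (hη : IsHeilbronn η) {r : ℕ} (hr : η 1 = r)
    (hr0 : r ≠ 0) (Z : Subgroup D) (hZ : ∀ d, d ∈ Z ↔ S.π d = 1) (lam : Z →* ℂˣ)
    (hlam : ∀ (z : Z) (g : D), η (z * g) = ((lam z : ℂˣ) : ℂ) * η g)
    (hinj : Function.Injective lam) (h2 : (1 : F) + 1 = 0) {i₀ : Fin m} {x₀ y₀ : F}
    (hB : S.B (Pi.single i₀ x₀) (Pi.single i₀ y₀) ≠ 1) : 2 ^ m ≤ r := by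
  classical
  have hx₀ : x₀ ≠ 0 := by
    rintro rfl
    apply hB
    rw [Pi.single_zero, B_zero_left]
  have hnd : ∀ (i : Fin m) (x : F), x ≠ 0 → ∃ y, S.B (Pi.single i x) (Pi.single i y) ≠ 1 := by
    intro i x hx
    let v : Fˣ := Units.mk0 (x₀ / x) (div_ne_zero hx₀ hx)
    refine ⟨((v⁻¹ : Fˣ) : F) * y₀, ?_⟩
    have h1 := S.B_mono (fun _ => v) (Equiv.swap i i₀) (Pi.single i₀ x₀) (Pi.single i₀ y₀)
    have e1 : ∀ z : F, Tm (fun _ : Fin m => v) (Equiv.swap i i₀) (Pi.single i₀ z)
        = Pi.single i (((v⁻¹ : Fˣ) : F) * z) := by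
      intro z
      have := Tm_single (fun _ : Fin m => v) (Equiv.swap i i₀) i z
      rwa [Equiv.swap_apply_left] at this
    rw [e1, e1] at h1
    have e2 : ((v⁻¹ : Fˣ) : F) * x₀ = x := by
      rw [Units.val_inv_eq_inv_val, Units.val_mk0]
      field_simp
    rw [e2] at h1
    rw [h1]
    exact hB
  -- vanishing
  have hvan : ∀ (a : Fin m → F), a ≠ 0 → ∀ d, S.π d = S.E a → η d = 0 := by
    intro a ha d hd
    obtain ⟨i, hi⟩ := Function.ne_iff.mp ha
    obtain ⟨y, hy⟩ := hnd i (a i) hi
    have h1 : S.B a (Pi.single i y) ≠ 1 := by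
      rw [← B_symm, B_single_right, B_symm]
      exact hy
    set e := S.L (Pi.single i y) with he
    have h3 : kap d e = S.B a (Pi.single i y) := S.B_eq hd (S.π_L _)
    set z := S.B a (Pi.single i y) with hz
    have hzZ : z ∈ Z := by rw [hZ]; exact S.π_B _ _
    have h4 : e⁻¹ * d * e⁻¹⁻¹ = z * d := by
      have h5 := S.B_central a (Pi.single i y) e⁻¹
      have h6 : d * e = z * (e * d) := by
        rw [← h3]; unfold kap; group
      calc e⁻¹ * d * e⁻¹⁻¹ = e⁻¹ * (d * e) := by rw [inv_inv, mul_assoc]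
        _ = e⁻¹ * (z * (e * d)) := by rw [h6]
        _ = (e⁻¹ * z) * (e * d) := by rw [mul_assoc]
        _ = (z * e⁻¹) * (e * d) := by rw [h5]
        _ = z * d := by rw [mul_assoc, inv_mul_cancel_left]
    have h5 := hη.conj d e⁻¹
    rw [h4] at h5
    have h6 := hlam ⟨z, hzZ⟩ d
    change η (z * d) = _ at h6
    rw [h5] at h6
    have h7 : ((lam ⟨z, hzZ⟩ : ℂˣ) : ℂ) ≠ 1 := by
      intro h
      apply h1
      have h8 : lam ⟨z, hzZ⟩ = lam 1 := by rw [map_one]; exact Units.ext h
      exact congrArg Subtype.val (hinj h8)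
    have h8 : (1 - ((lam ⟨z, hzZ⟩ : ℂˣ) : ℂ)) * η d = 0 := by
      rw [sub_mul, one_mul, ← h6, sub_self]
    rcases mul_eq_zero.mp h8 with h9 | h9
    · exact absurd (sub_eq_zero.mp h9).symm h7
    · exact h9
  -- the commutative subgroup
  let A : Subgroup D :=
    { carrier := {d | ∃ a : Fin m → F, (∀ i, a i = 0 ∨ a i = 1) ∧ S.π d = S.E a}
      mul_mem' := by
        rintro d e ⟨a, ha, hd⟩ ⟨b, hb, he⟩
        refine ⟨a + b, fun i => ?_, by rw [map_mul, hd, he, E_add]⟩
        rw [Pi.add_apply]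
        rcases ha i with h | h <;> rcases hb i with h' | h' <;> rw [h, h']
        · left; ring
        · right; ring
        · right; ring
        · left; exact h2
      one_mem' := ⟨0, fun i => Or.inl rfl, by rw [map_one, E_zero]⟩
      inv_mem' := by
        rintro d ⟨a, ha, hd⟩
        refine ⟨a, ha, ?_⟩
        rw [map_inv, hd, inv_eq_iff_mul_eq_one, ← E_add]
        have : a + a = 0 := by
          funext i
          rw [Pi.add_apply, Pi.zero_apply]
          rcases ha i with h | h <;> rw [h]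
          · ring
          · exact h2
        rw [this, E_zero] }
  have hmemA : ∀ d, d ∈ A ↔ ∃ a : Fin m → F, (∀ i, a i = 0 ∨ a i = 1) ∧ S.π d = S.E a :=
    fun d => Iff.rfl
  have hZA : Z ≤ A := by
    intro z hz
    refine ⟨0, fun i => Or.inl rfl, ?_⟩
    rw [(hZ z).mp hz, E_zero]
  have hcA : ∀ a b : A, a * b = b * a := by
    rintro ⟨d, a, ha, hd⟩ ⟨e, b, hb, he⟩
    apply Subtype.ext
    change d * e = e * d
    have h3 : kap d e = 1 := by
      rw [S.B_eq hd he]
      apply S.B_expand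
      intro i
      rcases ha i with h | h
      · rw [h, Pi.single_zero, B_zero_left]
      · rcases hb i with h' | h'
        · rw [h', Pi.single_zero, B_zero_right]
        · rw [h, h', B_self]
    unfold kap at h3
    rw [mul_inv_eq_one, mul_inv_eq_iff_eq_mul] at h3
    exact h3
  have hvanA : ∀ a ∈ A, a ∉ Z → η a = 0 := by
    rintro d ⟨a, ha, hd⟩ hdZ
    apply hvan a _ d hd
    rintro rfl
    apply hdZ
    rw [hZ, hd, E_zero]
  have hle := card_le_of_vanish hη hr hr0 Z lam hlam A hZA hcA hvanA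
  -- the order of `A`
  let bt : (Fin m → Bool) → (Fin m → F) := fun v i => if v i then 1 else 0
  have hbt : ∀ v i, bt v i = 0 ∨ bt v i = 1 := by
    intro v i
    simp only [bt]
    split_ifs
    · right; rfl
    · left; rfl
  have hbti : Function.Injective bt := by
    intro v w hvw
    funext i
    have := congrFun hvw i
    simp only [bt] at this
    by_cases h3 : v i <;> by_cases h4 : w i
    · rw [h3, h4]
    · rw [if_pos h3, if_neg h4] at this; exact absurd this one_ne_zero
    · rw [if_neg h3, if_pos h4] at this; exact absurd this.symm one_ne_zero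
    · rw [Bool.not_eq_true] at h3 h4; rw [h3, h4]
  have hcard : Nat.card Z * 2 ^ m ≤ Nat.card A := by
    have h3 : Nat.card (Z × (Fin m → Bool)) = Nat.card Z * 2 ^ m := by
      rw [Nat.card_prod, Nat.card_fun]
      simp
    rw [← h3]
    apply Nat.card_le_card_of_injective (fun e : Z × (Fin m → Bool) =>
      (⟨(e.1 : D) * S.L (bt e.2), bt e.2, hbt _, by
        rw [map_mul, (hZ _).mp e.1.2, one_mul, π_L]⟩ : A))
    rintro ⟨z, v⟩ ⟨w, v'⟩ h
    have h4 : (z : D) * S.L (bt v) = w * S.L (bt v') := congrArg Subtype.val h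
    have h5 := congrArg S.π h4
    rw [map_mul, map_mul, (hZ _).mp z.2, (hZ _).mp w.2, one_mul, one_mul, π_L, π_L] at h5
    have h6 := hbti (S.E_injective h5)
    subst h6
    have h7 := mul_right_cancel h4
    exact Prod.ext (Subtype.ext h7) rfl
  have hpos : 0 < Nat.card Z := Nat.card_pos
  have h3 : Nat.card Z * 2 ^ m ≤ Nat.card Z * r := by rw [mul_comm _ r]; exact hcard.trans hle
  exact Nat.le_of_mul_le_mul_left h3 hpos

lemma M_comm (u : Fin m → Fˣ) (σ : Perm (Fin m)) (u₀ : Fˣ) :
    S.M u σ * S.M (fun _ => u₀) 1 = S.M (fun _ => u₀) 1 * S.M u σ := by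
  apply Subtype.ext
  change viaEmbeddingHom S.f (mono u σ) * viaEmbeddingHom S.f (mono (fun _ => u₀) 1)
    = viaEmbeddingHom S.f (mono (fun _ => u₀) 1) * viaEmbeddingHom S.f (mono u σ)
  rw [← map_mul, ← map_mul]
  congr 1
  ext ⟨i, x⟩
  · simp [mono]
  · simp only [mono, Perm.mul_apply, prodShear_apply, Units.mulLeft_apply, Perm.one_apply]
    ring

/-- **Commuting lifts.** -/
theorem exists_lift [Finite D] {η : D → ℂ} (hη : IsHeilbronn η) {r : ℕ} (hr : η 1 = r)
    (hlt : r < (Fintype.card F - 1) * m) (hB : ∀ a b, S.B a b = 1) (a : Fin m → F) :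
    ∃ d, S.π d = S.E a ∧ η d = η 1 := by
  classical
  obtain ⟨u₀, hu₀⟩ := exists_unit S.hF
  obtain ⟨x, hx⟩ := S.surj (S.M (fun _ => u₀) 1)
  let δ : (Fin m → F) → D := fun a => kap x (S.L a)
  have hM : ∀ a : Fin m → F, S.M (fun _ => u₀) 1 * S.E a * (S.M (fun _ => u₀) 1)⁻¹
      = S.E (fun i => (u₀ : F) * a i) := by
    intro a
    have h1 := S.M_conj (fun _ => u₀) 1 (fun i => (u₀ : F) * a i)
    have h2 : Tm (fun _ : Fin m => u₀) 1 (fun i => (u₀ : F) * a i) = a := by
      funext i
      simp [Tm]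
    rw [h2] at h1
    exact h1
  have hπδ : ∀ a : Fin m → F, S.π (δ a) = S.E ((fun i => (u₀ : F) * a i) - a) := by
    intro a
    change S.π (kap x (S.L a)) = _
    unfold kap
    rw [map_mul, map_mul, map_mul, map_inv, map_inv, hx, π_L, hM, E_sub]
  have hδ : ∀ (x' d : D) (a : Fin m → F), S.π x' = S.M (fun _ => u₀) 1 → S.π d = S.E a →
      kap x' d = δ a := by
    intro x' d a hx' hd
    apply kap_congr
    · apply S.cen
      rw [map_mul, map_inv, hx', hx, mul_inv_cancel]
    · apply S.cen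
      rw [map_mul, map_inv, hd, π_L, mul_inv_cancel]
  have hcomm : ∀ (d e : D) (a b : Fin m → F), S.π d = S.E a → S.π e = S.E b → d * e = e * d := by
    intro d e a b hd he
    have h3 : kap d e = 1 := by rw [S.B_eq hd he, hB]
    unfold kap at h3
    rw [mul_inv_eq_one, mul_inv_eq_iff_eq_mul] at h3
    exact h3
  have hadd : ∀ a b, δ (a + b) = δ a * δ b := by
    intro a b
    have h1 : kap x (S.L a * S.L b) = δ (a + b) :=
      hδ x _ _ hx (by rw [map_mul, π_L, π_L, E_add])
    have h2 := hcomm (S.L a) (δ b) _ _ (S.π_L a) (hπδ b)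
    rw [← h1]
    have e1 : kap x (S.L a * S.L b) = kap x (S.L a) * (S.L a * kap x (S.L b) * (S.L a)⁻¹) := by
      unfold kap; group
    rw [e1]
    change δ a * (S.L a * δ b * (S.L a)⁻¹) = δ a * δ b
    rw [h2, mul_inv_cancel_right]
  set c : F := ((u₀ : F) - 1)⁻¹ with hc
  have hu1 : (u₀ : F) - 1 ≠ 0 := sub_ne_zero.mpr hu₀
  let sec : Multiplicative (Fin m → F) →* D :=
    { toFun := fun a => δ (fun i => c * Multiplicative.toAdd a i)
      map_one' := by
        have h1 := hadd 0 0
        rw [add_zero] at h1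
        have h2 : δ 0 = 1 := mul_eq_left.mp h1.symm
        have h3 : (fun i => c * Multiplicative.toAdd (1 : Multiplicative (Fin m → F)) i) = 0 := by
          funext i; simp
        rw [h3, h2]
      map_mul' := by
        intro a b
        rw [← hadd]
        congr 1
        funext i
        simp [mul_add] }
  have hsec : ∀ a : Fin m → F, sec (Multiplicative.ofAdd a) = δ (fun i => c * a i) := fun a => rfl
  refine ⟨sec (Multiplicative.ofAdd a), ?_, ?_⟩
  · rw [hsec, hπδ]
    congr 1
    funext i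
    rw [Pi.sub_apply, hc]
    field_simp
  · apply block_kernel_gen hη S.hF sec ?_ hr hlt a
    intro u σ a
    rw [hsec, hsec]
    change η (δ (fun i => c * Tm u σ a i)) = _
    have h1 : (fun i => c * Tm u σ a i) = Tm u σ (fun i => c * a i) := by
      funext i
      unfold Tm
      ring
    rw [h1]
    set b : Fin m → F := fun i => c * a i with hb
    obtain ⟨h, hh⟩ := S.surj (S.M u σ)
    have h2 : kap (h * x * h⁻¹) (h * S.L (Tm u σ b) * h⁻¹) = δ b := by
      apply hδ
      · rw [map_mul, map_mul, map_inv, hh, hx, M_comm, mul_inv_cancel_right]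
      · rw [map_mul, map_mul, map_inv, hh, π_L, M_conj]
    rw [kap_conj] at h2
    rw [← h2, hη.conj]

end Setup

end Pool.Agent.H302R7
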