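import Pool.Agent.H302R7.CaseB2

/-!
# Central extensions of alternating groups: elements which are not long cycles
-/

set_option autoImplicit false
set_option linter.unusedSectionVars false

namespace Pool.Agent.H302R7

open Pool.Agent.H302R2 Pool.Agent.H302R5 Pool.Agent.H302R6 Equiv Equiv.Perm

universe u

section

variable {D : Type u} [Group D] [Finite D] {n : ℕ}

/-- permutations with a lift in the kernel of `η` -/
def LK (π : D →* alternatingGroup (Fin n)) (η : D → ℂ) (g : Perm (Fin n)) : Prop :=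
  ∃ d : D, ((π d : alternatingGroup (Fin n)) : Perm (Fin n)) = g ∧ η d = η 1

lemma LK_cl {π : D →* alternatingGroup (Fin n)} (hπ : Function.Surjective π)
    {η : D → ℂ} (hη : IsHeilbronn η) (h0 : η 1 ≠ 0) (lam : π.ker →* ℂˣ)
    (hlam : ∀ (z : π.ker) (g : D), η (z * g) = ((lam z : ℂˣ) : ℂ) * η g)
    (hinj : Function.Injective lam) : Cl (LK π η) := by
  -- kernel elements in the kernel of `η` are trivial
  have hone : ∀ z : D, π z = 1 → ∀ d : D, η (z * d) = η 1 → η d = η 1 → z = 1 := by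
    intro z hz d h1 h2
    have h3 := hlam ⟨z, MonoidHom.mem_ker.mpr hz⟩ d
    change η (z * d) = _ at h3
    rw [h1, h2] at h3
    have h4 : ((lam ⟨z, MonoidHom.mem_ker.mpr hz⟩ : ℂˣ) : ℂ) = 1 := by
      have h5 : (1 - ((lam ⟨z, MonoidHom.mem_ker.mpr hz⟩ : ℂˣ) : ℂ)) * η 1 = 0 := by
        rw [sub_mul, one_mul, ← h3, sub_self]
      exact (sub_eq_zero.mp ((mul_eq_zero.mp h5).resolve_right h0)).symm
    have h5 : lam ⟨z, MonoidHom.mem_ker.mpr hz⟩ = lam 1 := by rw [map_one]; exact Units.ext h4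
    exact congrArg Subtype.val (hinj h5)
  refine ⟨?_, ?_, ?_, ?_, ?_⟩
  · rintro g ⟨d, rfl, -⟩
    exact mem_alternatingGroup.mp (π d).2
  · exact ⟨1, by rw [map_one]; rfl, rfl⟩
  · rintro x y ⟨d, hd, hd1⟩ ⟨e, he, he1⟩ hxy
    have h1 : π d * π e = π e * π d := by
      apply Subtype.ext
      rw [Subgroup.coe_mul, Subgroup.coe_mul, hd, he, hxy]
    have h2 : π (kap d e) = 1 := by
      unfold kap
      rw [map_mul, map_mul, map_mul, map_inv, map_inv, h1, mul_inv_cancel_right, mul_inv_cancel]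
    have h3 : kap d e = 1 := by
      apply hone _ h2 e
      · have : kap d e * e = d * e * d⁻¹ := by unfold kap; group
        rw [this, hη.conj, he1]
      · exact he1
    have h4 : d * e = e * d := by
      unfold kap at h3
      rwa [mul_inv_eq_one, mul_inv_eq_iff_eq_mul] at h3
    refine ⟨d * e, by rw [map_mul, Subgroup.coe_mul, hd, he], ?_⟩
    rw [hη.mul_of_comm h4 he1, hd1]
  · rintro x c ⟨d, hd, hd1⟩ hc
    obtain ⟨e, he⟩ := hπ ⟨c, mem_alternatingGroup.mpr hc⟩
    refine ⟨e * d * e⁻¹, ?_, ?_⟩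
    · rw [map_mul, map_mul, map_inv, he, Subgroup.coe_mul, Subgroup.coe_mul, Subgroup.coe_inv, hd]
    · rw [hη.conj, hd1]
  · have hsq : ∀ (x : Perm (Fin n)) (d : D), ((π d : alternatingGroup (Fin n)) : Perm (Fin n)) = x →
        η d = η 1 → x * x = 1 → d * d = 1 := by
      intro x d hd hd1 hx
      apply hone (d * d) _ 1
      · rw [mul_one]
        have := hη.pow_of_eq hd1 2
        rwa [pow_two] at this
      · rfl
      · rw [map_mul]
        apply Subtype.ext
        rw [Subgroup.coe_mul, hd, hx]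
        rfl
    rintro x y ⟨d, hd, hd1⟩ ⟨e, he, he1⟩ hx hy
    refine ⟨d * e, by rw [map_mul, Subgroup.coe_mul, hd, he], ?_⟩
    exact hη.mul_of_invol (hsq x d hd hd1 hx) (hsq y e he he1 hy) hd1 he1

/-- Every element which is not a long cycle has a lift in the kernel. -/
theorem nonlong_lift {r : ℕ} (hr2 : 2 ≤ r) (hsmall : Small r n)
    {π : D →* alternatingGroup (Fin n)} (hπ : Function.Surjective π)
    (hcen : ∀ d, π d = 1 → ∀ g, g * d = d * g)
    {η : D → ℂ} (hη : IsHeilbronn η) {r' : ℕ} (hr' : r' ≤ r) (h1 : η 1 = r') (h0 : r' ≠ 0)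
    (lam : π.ker →* ℂˣ)
    (hlam : ∀ (z : π.ker) (g : D), η (z * g) = ((lam z : ℂˣ) : ℂ) * η g)
    (hinj : Function.Injective lam) {g : Perm (Fin n)} (hgs : Perm.sign g = 1)
    (hg : g.IsCycle → g.support.card + 2 ≤ n) : LK π η g := by
  classical
  have hη0 : η 1 ≠ 0 := by rw [h1]; exact_mod_cast h0
  have hcl := LK_cl hπ hη hη0 lam hlam hinj
  obtain ⟨hsm, k, hk, hlt⟩ := hsmall
  have hn8 : 8 ≤ n := Small.eight ⟨hsm, k, hk, hlt⟩ hr2
  set m := n / 2 ^ k with hm
  have hmpos : 0 < m := by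
    rcases Nat.eq_zero_or_pos m with h | h
    · rw [h, mul_zero] at hlt; omega
    · exact h
  have : NeZero m := ⟨hmpos.ne'⟩
  have : Fact (Nat.Prime 2) := ⟨Nat.prime_two⟩
  let F := GaloisField 2 k
  have : Fintype F := Fintype.ofFinite F
  have hcardF : Fintype.card F = 2 ^ k := by
    rw [← Nat.card_eq_fintype_card]; exact GaloisField.card 2 k (by omega)
  have h4 : 4 ≤ Fintype.card F := by
    rw [hcardF]
    calc 4 = 2 ^ 2 := by norm_num
      _ ≤ 2 ^ k := Nat.pow_le_pow_right (by norm_num) hk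
  have heven : Even (Fintype.card F) := by
    rw [hcardF]; exact (Nat.even_pow.mpr ⟨even_two, by omega⟩)
  have hemb : Nonempty (Fin m × F ↪ Fin n) := by
    apply Function.Embedding.nonempty_of_card_le
    rw [Fintype.card_prod, Fintype.card_fin, Fintype.card_fin, hcardF, hm]
    exact Nat.div_mul_le_self n (2 ^ k)
  obtain ⟨f⟩ := hemb
  let S : Setup D n m F := ⟨π, hπ, hcen, h4, heven, f⟩
  have htriv : ∀ a b, S.B a b = 1 := by
    apply S.B_trivial
    rcases Nat.lt_or_ge k 3 with hk3 | hk3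
    · have hk2 : k = 2 := by omega
      by_contra hcon
      push Not at hcon
      obtain ⟨i, x, y, hxy⟩ := hcon
      have h2 : (1 : F) + 1 = 0 := CharTwo.add_self_eq_zero _
      have h5 := S.bound_of_nontrivial hη h1 h0 π.ker (fun d => MonoidHom.mem_ker) lam hlam hinj
        h2 hxy
      have h6 : m = n / 4 := by rw [hm, hk2]; norm_num
      rw [h6] at h5
      omega
    · apply S.B_same
      rw [hcardF]
      calc 5 ≤ 2 ^ 3 := by norm_num
        _ ≤ 2 ^ k := Nat.pow_le_pow_right (by norm_num) hk3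
  let a : Fin m → F := Pi.single 0 1
  obtain ⟨d, hd, hd1⟩ := S.exists_lift hη h1 (by rw [hcardF]; exact lt_of_le_of_lt hr' hlt) htriv a
  set x : Perm (Fin n) := ((S.E a : alternatingGroup (Fin n)) : Perm (Fin n)) with hx
  have hxK : LK π η x := ⟨d, congrArg Subtype.val hd, hd1⟩
  have haa : a + a = 0 := by
    ext i
    simp only [Pi.add_apply, Pi.zero_apply]
    exact CharTwo.add_self_eq_zero _
  have hx2 : x * x = 1 := by
    rw [hx, ← Subgroup.coe_mul, ← S.E_add, haa, S.E_zero]
    rfl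
  have hx1 : x ≠ 1 := by
    intro h
    have h5 : S.E a = S.E 0 := by rw [S.E_zero]; exact Subtype.ext h
    have h6 := congrFun (S.E_injective h5) 0
    simp [a] at h6
  have hD : HasDS (LK π η) := by
    intro a b c d hab hac had hbc hbd hcd
    exact Cl.double_swap hcl hxK hx2 hx1 hab hac had hbc hbd hcd
  exact Cl.of_not_long hcl hD hgs (by rw [Fintype.card_fin]; exact hg)

end

end Pool.Agent.H302R7
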