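import Pool.Agent.H302R7.CaseB3

/-!
# Central extensions of alternating groups: Sylow subgroups and transfer
-/

set_option autoImplicit false
set_option linter.unusedSectionVars false

namespace Pool.Agent.H302R7

open Pool.Agent.H302R2 Pool.Agent.H302R5 Pool.Agent.H302R6 Equiv Equiv.Perm

universe u

section

lemma central_pow_index {D : Type u} [Group D] [Finite D] (hperf : commutator D = ⊤)
    (H : Subgroup D) (μ : H →* ℂˣ) {z : D} (hz : z ∈ H) (hc : ∀ g, g * z = z * g) :
    μ ⟨z, hz⟩ ^ H.index = 1 := by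
  have key : ∀ (k : ℕ) (g₀ : D), g₀⁻¹ * z ^ k * g₀ ∈ H → g₀⁻¹ * z ^ k * g₀ = z ^ k := by
    intro k g₀ _
    have h1 : Commute g₀ (z ^ k) := (show Commute g₀ z from hc g₀).pow_right k
    rw [mul_assoc, ← h1.eq, inv_mul_cancel_left]
  have h1 := MonoidHom.transfer_eq_pow μ z key
  rw [hom_trivial hperf (MonoidHom.transfer μ) z] at h1
  rw [← map_pow]
  have h2 : (⟨z, hz⟩ : H) ^ H.index = ⟨z ^ H.index, MonoidHom.transfer_eq_pow_aux z key⟩ := by
    apply Subtype.ext; rfl
  rw [h2]
  exact h1.symm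

/-- a linear constituent -/
lemma exists_linear {P : Type u} [Group P] [Finite P] {η : P → ℂ} (hη : IsHeilbronn η)
    (h0 : η 1 ≠ 0) (N : Subgroup P) [N.Normal] (hs : Group.IsSolvable N)
    (hN : ∀ n ∈ N, η n = η 1) (hQ : ∀ a b : P ⧸ N, a * b = b * a) :
    ∃ μ : P →* ℂˣ, ∑ᶠ y : P, η y * (((μ y)⁻¹ : ℂˣ) : ℂ) ≠ 0 := by
  classical
  have : Fintype P := Fintype.ofFinite _
  have : Fintype (P ⧸ N) := Fintype.ofFinite _
  let π : P →* P ⧸ N := QuotientGroup.mk' N
  have hπ : Function.Surjective π := QuotientGroup.mk'_surjective N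
  have hker : π.ker = N := QuotientGroup.ker_mk' N
  have hc := const_sol hη N hs hN
  have hpush : ∀ x, push π η (π x) = η x := push_mk (by rw [hker]; exact hc)
  have hη' := push_isHeilbronn hπ hη
  obtain ⟨s, hs⟩ := hη'.comm_multiset hQ
  obtain ⟨ψ, hψ⟩ : ∃ ψ, ψ ∈ s := by
    apply Multiset.exists_mem_of_ne_zero
    rintro rfl
    have h1 := hs 1
    rw [Multiset.map_zero, Multiset.sum_zero] at h1
    apply h0
    rw [← hpush 1, map_one, h1]
  refine ⟨ψ.comp π, ?_⟩
  rw [finsum_eq_sum_of_fintype]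
  have h1 := sum_comp_surj π hπ (fun q => push π η q * (((ψ q)⁻¹ : ℂˣ) : ℂ))
  have h2 : ∑ y : P, η y * ((((ψ.comp π) y)⁻¹ : ℂˣ) : ℂ)
      = ∑ y : P, push π η (π y) * (((ψ (π y))⁻¹ : ℂˣ) : ℂ) :=
    Finset.sum_congr rfl fun y _ => by rw [hpush]; rfl
  rw [h2, h1]
  have h3 := count_mult s ψ
  rw [finsum_eq_sum_of_fintype] at h3
  have h4 : ∑ q : P ⧸ N, push π η q * (((ψ q)⁻¹ : ℂˣ) : ℂ)
      = (s.count ψ : ℂ) * Nat.card (P ⧸ N) := by
    rw [← h3]
    exact Finset.sum_congr rfl fun q _ => by rw [hs]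
  rw [h4]
  have h5 : 1 ≤ s.count ψ := Multiset.one_le_count_iff_mem.mpr hψ
  refine mul_ne_zero ?_ (mul_ne_zero ?_ ?_)
  · exact_mod_cast Nat.card_pos.ne'
  · exact_mod_cast (by omega : s.count ψ ≠ 0)
  · exact_mod_cast Nat.card_pos.ne'

/-- A `p`-group of even permutations has a normal subgroup with cyclic quotient which contains no
long cycle. -/
lemma exists_nonlong_normal {P : Type u} [Group P] [Finite P] {p : ℕ} [hp : Fact p.Prime]
    (hP : IsPGroup p P) {n : ℕ} (hn : 8 ≤ n) (ρ : P →* Perm (Fin n)) :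
    ∃ (M : Subgroup P) (x : P), M.Normal ∧ (∀ w, ∃ i : ℤ, ∃ s ∈ M, w = x ^ i * s) ∧
      ∀ y ∈ M, (ρ y).IsCycle → (ρ y).support.card + 2 ≤ n := by
  classical
  by_cases hlong : ∃ x : P, (ρ x).IsCycle ∧ n < (ρ x).support.card + 2
  swap
  · push Not at hlong
    refine ⟨⊤, 1, inferInstance, fun w => ⟨0, w, Subgroup.mem_top w, by simp⟩, ?_⟩
    intro y _ hy
    exact hlong y hy
  obtain ⟨x, hxc, hxl⟩ := hlong
  obtain ⟨t, ht⟩ := IsPGroup.iff_card.mp hP
  letI : MulAction P (Fin n) := MulAction.compHom (Fin n) ρ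
  have hsmul : ∀ (w : P) (a : Fin n), w • a = ρ w a := fun w a => rfl
  -- fixed points of long cycles are fixed by everything
  have hfix : ∀ y : P, (ρ y).IsCycle → n < (ρ y).support.card + 2 → ∀ q, ρ y q = q →
      ∀ w : P, ρ w q = q := by
    intro y hyc hyl q hq w
    by_contra hwq
    have hqs : q ∉ (ρ y).support := by rw [mem_support, not_not]; exact hq
    have hcard : (ρ y).support.card = n - 1 := by
      have h1 : (ρ y).support ⊆ Finset.univ.erase q := by
        intro a ha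
        rw [Finset.mem_erase]
        exact ⟨fun h => hqs (h ▸ ha), Finset.mem_univ a⟩
      have h2 := Finset.card_le_card h1
      rw [Finset.card_erase_of_mem (Finset.mem_univ q), Finset.card_univ, Fintype.card_fin] at h2
      omega
    have hsupp : ∀ a, a ≠ q → ρ y a ≠ a := by
      intro a ha
      have h1 : (ρ y).support = Finset.univ.erase q := by
        apply Finset.eq_of_subset_of_card_le
        · intro b hb
          rw [Finset.mem_erase]
          exact ⟨fun h => hqs (h ▸ hb), Finset.mem_univ b⟩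
        · rw [Finset.card_erase_of_mem (Finset.mem_univ q), Finset.card_univ, Fintype.card_fin,
            hcard]
      have h2 : a ∈ (ρ y).support := by
        rw [h1, Finset.mem_erase]; exact ⟨ha, Finset.mem_univ a⟩
      exact mem_support.mp h2
    have horb : MulAction.orbit P q = Set.univ := by
      rw [Set.eq_univ_iff_forall]
      intro a
      by_cases ha : a = q
      · rw [ha]; exact MulAction.mem_orbit_self q
      · obtain ⟨i, hi⟩ := hyc.exists_zpow_eq (hsupp _ hwq) (hsupp _ ha)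
        refine ⟨y ^ i * w, ?_⟩
        change ρ (y ^ i * w) q = a
        rw [map_mul, map_zpow, Perm.mul_apply, hi]
    have h1 := MulAction.index_stabilizer P q
    rw [horb, Set.ncard_univ, Nat.card_eq_fintype_card, Fintype.card_fin] at h1
    have h2 : n ∣ p ^ t := by
      rw [← ht, ← h1]; exact Subgroup.index_dvd_card _
    have h3 : n - 1 ∣ p ^ t := by
      rw [← hcard, ← hyc.orderOf, ← ht]
      exact (orderOf_map_dvd ρ y).trans (orderOf_dvd_natCard y)
    obtain ⟨a, -, ha⟩ := (Nat.dvd_prime_pow hp.out).mp h2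
    obtain ⟨b, -, hb⟩ := (Nat.dvd_prime_pow hp.out).mp h3
    have ha0 : a ≠ 0 := by rintro rfl; rw [pow_zero] at ha; omega
    have hb0 : b ≠ 0 := by rintro rfl; rw [pow_zero] at hb; omega
    have h4 : p ∣ n := by rw [ha]; exact dvd_pow_self p ha0
    have h5 : p ∣ n - 1 := by rw [hb]; exact dvd_pow_self p hb0
    have h6 : p ∣ n - (n - 1) := Nat.dvd_sub h4 h5
    have h7 : n - (n - 1) = 1 := by omega
    rw [h7] at h6
    exact hp.out.one_lt.ne' (Nat.dvd_one.mp h6)
  obtain ⟨p₀, hp₀⟩ : ∃ p₀, ρ x p₀ ≠ p₀ := by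
    by_contra hcon
    push Not at hcon
    exact hxc.ne_one (Equiv.ext hcon)
  -- transitivity
  have htrans : ∀ y : P, (ρ y).IsCycle → n < (ρ y).support.card + 2 → ∀ w : P,
      ∃ i : ℤ, y ^ i * w ∈ MulAction.stabilizer P p₀ := by
    intro y hyc hyl w
    have h1 : ∀ v : P, ρ y (ρ v p₀) ≠ ρ v p₀ := by
      intro v hv
      have h2 := hfix y hyc hyl _ hv
      have h3 := h2 v⁻¹
      rw [← Perm.mul_apply, ← map_mul, inv_mul_cancel, map_one, Perm.one_apply] at h3
      rw [← h3] at h2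
      exact hp₀ (h2 x)
    have h2 : ρ y p₀ ≠ p₀ := by
      have := h1 1
      rwa [map_one, Perm.one_apply] at this
    obtain ⟨i, hi⟩ := hyc.exists_zpow_eq (h1 w) h2
    refine ⟨i, ?_⟩
    rw [MulAction.mem_stabilizer_iff]
    change ρ (y ^ i * w) p₀ = p₀
    rw [map_mul, map_zpow, Perm.mul_apply, hi]
  have hne : MulAction.stabilizer P p₀ ≠ ⊤ := by
    intro h
    have : x ∈ MulAction.stabilizer P p₀ := by rw [h]; exact Subgroup.mem_top x
    exact hp₀ (MulAction.mem_stabilizer_iff.mp this)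
  obtain ⟨M, hM, hle⟩ := (eq_top_or_exists_le_coatom (MulAction.stabilizer P p₀)).resolve_left hne
  have hnil : Group.IsNilpotent P := hP.isNilpotent
  have hMn : M.Normal := Subgroup.NormalizerCondition.normal_of_coatom M
    Group.normalizerCondition_of_isNilpotent hM
  refine ⟨M, x, hMn, ?_, ?_⟩
  · intro w
    obtain ⟨i, hi⟩ := htrans x hxc hxl w
    exact ⟨-i, x ^ i * w, hle hi, by group⟩
  · intro y hy hyc
    by_contra hcon
    push Not at hcon
    apply hM.1
    rw [Subgroup.eq_top_iff']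
    intro w
    obtain ⟨i, hi⟩ := htrans y hyc hcon w
    have h1 := mul_mem (zpow_mem hy (-i)) (hle hi)
    have h2 : y ^ (-i) * (y ^ i * w) = w := by group
    rwa [h2] at h1

end

end Pool.Agent.H302R7
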