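import Mathlib

/-!
# Normal chains with abelian or alternating layers
-/

set_option autoImplicit false
set_option linter.unusedSectionVars false

namespace Pool.Agent.H302R7

open scoped Nat

universe u w

/-- The numerical condition on `r` and the degree `n` of an alternating group. -/
def Small (r n : ℕ) : Prop :=
  r < 2 ^ (n / 4) ∧ ∃ k, 2 ≤ k ∧ r < (2 ^ k - 1) * (n / 2 ^ k)

lemma Small.mono {r r' n : ℕ} (h : Small r n) (hr : r' ≤ r) : Small r' n := by
  obtain ⟨h1, k, h2, h3⟩ := h
  exact ⟨lt_of_le_of_lt hr h1, k, h2, lt_of_le_of_lt hr h3⟩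

lemma Small.eight {r n : ℕ} (h : Small r n) (hr : 2 ≤ r) : 8 ≤ n := by
  by_contra hcon
  have h1 : n / 4 ≤ 1 := by omega
  have h2 : 2 ^ (n / 4) ≤ 2 ^ 1 := Nat.pow_le_pow_right (by norm_num) h1
  have := h.1
  omega

lemma Small.add_two {r n : ℕ} (h : Small r n) : r + 2 ≤ n := by
  obtain ⟨-, k, hk, hlt⟩ := h
  have hpos : 1 ≤ n / 2 ^ k := by
    by_contra hcon
    have : n / 2 ^ k = 0 := Nat.lt_one_iff.mp (not_le.mp hcon)
    rw [this, mul_zero] at hlt
    omega
  have h1 : 2 ^ k * (n / 2 ^ k) ≤ n := Nat.mul_div_le n (2 ^ k)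
  have h2 : (2 ^ k - 1) * (n / 2 ^ k) = 2 ^ k * (n / 2 ^ k) - n / 2 ^ k := by
    rw [Nat.sub_mul, one_mul]
  have h3 : n / 2 ^ k ≤ 2 ^ k * (n / 2 ^ k) := Nat.le_mul_of_pos_left _ (by positivity)
  omega

lemma Small.fact_lt {r n : ℕ} (h : Small r n) : 2 * r ! < n ! := by
  have h1 := h.add_two
  obtain ⟨j, rfl⟩ : ∃ j, n = j + 2 := ⟨n - 2, by omega⟩
  have hn : 3 ≤ j + 2 := by
    have := h.1
    by_contra hcon
    have : (j + 2) / 4 = 0 := by omega
    rw [this] at *
    obtain ⟨-, k, hk, hlt⟩ := h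
    have h3 : 2 ^ 2 ≤ 2 ^ k := Nat.pow_le_pow_right (by norm_num) hk
    have : (j + 2) / 2 ^ k = 0 := Nat.div_eq_of_lt (by omega)
    rw [this, mul_zero] at hlt
    omega
  have h2 : r ! ≤ j ! := Nat.factorial_le (by omega)
  have h3 : 0 < j ! := Nat.factorial_pos j
  rw [Nat.factorial_succ, Nat.factorial_succ]
  have h4 : 3 * 2 ≤ (j + 1 + 1) * (j + 1) := Nat.mul_le_mul (by omega) (by omega)
  have h5 : (j + 1 + 1) * ((j + 1) * j !) = ((j + 1 + 1) * (j + 1)) * j ! := by ring
  rw [h5]
  calc 2 * r ! ≤ 2 * j ! := by omega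
    _ < 6 * j ! := by omega
    _ ≤ ((j + 1 + 1) * (j + 1)) * j ! := Nat.mul_le_mul_right _ (by omega)

section product

variable {ι : Type w} [DecidableEq ι] {T : ι → Type w} [∀ i, Group (T i)]

/-- A normal subgroup of a product of nonabelian simple groups contains each factor to which it
projects nontrivially. -/
lemma single_mem (hsimp : ∀ i, IsSimpleGroup (T i))
    (hZ : ∀ i, ∀ t : T i, (∀ s : T i, s * t = t * s) → t = 1) (N : Subgroup (∀ i, T i))
    (hN : N.Normal) {i : ι} {y : ∀ i, T i} (hy : y ∈ N) (hyi : y i ≠ 1) (t : T i) :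
    Pi.mulSingle i t ∈ N := by
  have := hsimp i
  obtain ⟨s, hs⟩ : ∃ s : T i, s * y i ≠ y i * s := by
    by_contra hcon
    push Not at hcon
    exact hyi (hZ i _ hcon)
  have h1 : Pi.mulSingle i s * y * (Pi.mulSingle i s)⁻¹ * y⁻¹ ∈ N :=
    mul_mem (hN.conj_mem y hy _) (inv_mem hy)
  have h2 : Pi.mulSingle i s * y * (Pi.mulSingle i s)⁻¹ * y⁻¹
      = (Pi.mulSingle i (s * y i * s⁻¹ * (y i)⁻¹) : ∀ i, T i) := by
    funext j
    by_cases hj : j = i
    · subst hj; simp
    · simp [Pi.mulSingle_eq_of_ne hj]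
  rw [h2] at h1
  have h3 : (N.comap (MonoidHom.mulSingle T i)).Normal := hN.comap _
  rcases h3.eq_bot_or_eq_top with h4 | h4
  · exfalso
    have h5 : s * y i * s⁻¹ * (y i)⁻¹ ∈ N.comap (MonoidHom.mulSingle T i) := h1
    rw [h4, Subgroup.mem_bot, mul_inv_eq_one, mul_inv_eq_iff_eq_mul] at h5
    exact hs h5
  · have h5 : t ∈ N.comap (MonoidHom.mulSingle T i) := by rw [h4]; exact Subgroup.mem_top _
    exact h5

/-- Membership in a normal subgroup of a finite product of nonabelian simple groups. -/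
lemma mem_of_support [Finite ι] (hsimp : ∀ i, IsSimpleGroup (T i))
    (hZ : ∀ i, ∀ t : T i, (∀ s : T i, s * t = t * s) → t = 1) (N : Subgroup (∀ i, T i))
    (hN : N.Normal) (x : ∀ i, T i) (hx : ∀ i, x i ≠ 1 → ∃ y ∈ N, y i ≠ 1) : x ∈ N := by
  classical
  have : Fintype ι := Fintype.ofFinite _
  have key : ∀ (s : Finset ι) (x : ∀ i, T i), (∀ i, i ∉ s → x i = 1) →
      (∀ i, x i ≠ 1 → ∃ y ∈ N, y i ≠ 1) → x ∈ N := by
    intro s
    induction s using Finset.induction_on with
    | empty =>
      intro x hx _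
      have : x = 1 := funext fun i => hx i (by simp)
      rw [this]; exact one_mem N
    | insert j s hj ih =>
      intro x hx hx2
      have h1 : x = Function.update x j 1 * Pi.mulSingle j (x j) := by
        funext i
        by_cases h : i = j
        · subst h; simp
        · rw [Pi.mul_apply, Function.update_of_ne h, Pi.mulSingle_eq_of_ne h, mul_one]
      rw [h1]
      refine mul_mem (ih _ ?_ ?_) ?_
      · intro i hi
        by_cases h : i = j
        · subst h; simp
        · rw [Function.update_of_ne h]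
          exact hx i (by simp [h, hi])
      · intro i hi
        by_cases h : i = j
        · subst h; simp at hi
        · rw [Function.update_of_ne h] at hi
          exact hx2 i hi
      · by_cases hxj : x j = 1
        · rw [hxj, Pi.mulSingle_one]; exact one_mem N
        · obtain ⟨y, hy, hyj⟩ := hx2 j hxj
          exact single_mem hsimp hZ N hN hy hyj _
  exact key Finset.univ x (fun i hi => absurd (Finset.mem_univ i) hi) hx

end product

/-- `B / A` is abelian or a product of alternating groups of large degree. -/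
def Layer (r : ℕ) {G : Type u} [Group G] (A B : Subgroup G) : Prop :=
  (∀ a ∈ B, ∀ b ∈ B, a * b * a⁻¹ * b⁻¹ ∈ A) ∨
  ∃ (ι : Type) (_ : Finite ι) (n : ι → ℕ) (f : B →* (∀ i, alternatingGroup (Fin (n i)))),
    (∀ i, Small r (n i)) ∧ Function.Surjective f ∧ f.ker = A.subgroupOf B

/-- `B` has a chain of subgroups normal in `G` with layers as above. -/
inductive Chn (r : ℕ) {G : Type u} [Group G] : Subgroup G → Prop
  | bot : Chn r ⊥
  | step (A B : Subgroup G) (hA : A.Normal) (hB : B.Normal) (hAB : A ≤ B) (hL : Layer r A B)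
      (h : Chn r A) : Chn r B

lemma alt_simple {n : ℕ} (h : 8 ≤ n) : IsSimpleGroup (alternatingGroup (Fin n)) :=
  alternatingGroup.isSimpleGroup (by rw [Nat.card_eq_fintype_card, Fintype.card_fin]; omega)

lemma alt_center {n : ℕ} (h : 8 ≤ n) (t : alternatingGroup (Fin n))
    (ht : ∀ s : alternatingGroup (Fin n), s * t = t * s) : t = 1 := by
  have h1 : t ∈ Subgroup.center (alternatingGroup (Fin n)) := by
    rw [Subgroup.mem_center_iff]
    exact ht
  rw [alternatingGroup.center_eq_bot
    (by rw [Nat.card_eq_fintype_card, Fintype.card_fin]; omega)] at h1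
  exact Subgroup.mem_bot.mp h1

section closure

variable {r : ℕ} {G : Type u} [Group G]

/-- intersection with a normal subgroup -/
lemma Layer.inf (hr : 2 ≤ r) {A B : Subgroup G} (hA : A.Normal) (hB : B.Normal) (hAB : A ≤ B)
    (hL : Layer r A B) (N : Subgroup G) (hN : N.Normal) : Layer r (A ⊓ N) (B ⊓ N) := by
  classical
  rcases hL with hL | ⟨ι, hι, n, f, hn, hf, hk⟩
  · left
    intro a ha b hb
    rw [Subgroup.mem_inf] at ha hb ⊢
    exact ⟨hL a ha.1 b hb.1, mul_mem (mul_mem (mul_mem ha.2 hb.2) (inv_mem ha.2)) (inv_mem hb.2)⟩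
  · right
    -- the image of `B ⊓ N`
    let NB : Subgroup B := N.subgroupOf B
    have hNB : NB.Normal := inferInstance
    let P : Subgroup (∀ i, alternatingGroup (Fin (n i))) := NB.map f
    have hP : P.Normal := hNB.map f hf
    let J : Type := {i : ι // ∃ y ∈ P, y i ≠ 1}
    let f' : (B ⊓ N : Subgroup G) →* (∀ j : J, alternatingGroup (Fin (n j.1))) :=
      { toFun := fun b j => f ⟨b, b.2.1⟩ j.1
        map_one' := by
          funext j
          have : (⟨((1 : (B ⊓ N : Subgroup G)) : G), (1 : (B ⊓ N : Subgroup G)).2.1⟩ : B) = 1 := rfl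
          rw [this, map_one]; rfl
        map_mul' := by
          intro a b
          funext j
          have : (⟨((a * b : (B ⊓ N : Subgroup G)) : G), (a * b).2.1⟩ : B)
            = ⟨a, a.2.1⟩ * ⟨b, b.2.1⟩ := rfl
          rw [this, map_mul]; rfl }
    have hsimp : ∀ i, IsSimpleGroup (alternatingGroup (Fin (n i))) :=
      fun i => alt_simple ((hn i).eight hr)
    have hZ : ∀ i, ∀ t : alternatingGroup (Fin (n i)),
        (∀ s : alternatingGroup (Fin (n i)), s * t = t * s) → t = 1 :=
      fun i => alt_center ((hn i).eight hr)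
    refine ⟨J, inferInstance, fun j => n j.1, f', fun j => hn j.1, ?_, ?_⟩
    · intro z
      let x : ∀ i, alternatingGroup (Fin (n i)) := fun i =>
        if h : ∃ y ∈ P, y i ≠ 1 then z ⟨i, h⟩ else 1
      have hx : x ∈ P := by
        refine mem_of_support hsimp hZ P hP x ?_
        intro i hi
        by_contra hcon
        apply hi
        simp only [x, dif_neg hcon]
      obtain ⟨b, hb, hbx⟩ := hx
      refine ⟨⟨b, b.2, hb⟩, ?_⟩
      funext j
      change f b j.1 = z j
      rw [hbx]
      simp only [x, dif_pos j.2]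
      rfl
    · ext b
      rw [MonoidHom.mem_ker, Subgroup.mem_subgroupOf]
      constructor
      · intro hb
        refine ⟨?_, b.2.2⟩
        have h1 : (⟨b, b.2.1⟩ : B) ∈ f.ker := by
          rw [MonoidHom.mem_ker]
          funext i
          by_contra hcon
          have h2 : ∃ y ∈ P, y i ≠ 1 := ⟨f ⟨b, b.2.1⟩, ⟨⟨b, b.2.1⟩, b.2.2, rfl⟩, hcon⟩
          have h3 := congrFun hb ⟨i, h2⟩
          exact hcon h3
        rw [hk, Subgroup.mem_subgroupOf] at h1
        exact h1
      · intro hb
        have h1 : (⟨b, b.2.1⟩ : B) ∈ f.ker := by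
          rw [hk, Subgroup.mem_subgroupOf]
          exact hb.1
        rw [MonoidHom.mem_ker] at h1
        funext j
        exact congrFun h1 j.1

/-- images in quotients -/
lemma Layer.map (hr : 2 ≤ r) {A B : Subgroup G} (hA : A.Normal) (hB : B.Normal) (hAB : A ≤ B)
    (hL : Layer r A B) {H : Type u} [Group H] (q : G →* H) (hq : Function.Surjective q) :
    Layer r (A.map q) (B.map q) := by
  classical
  rcases hL with hL | ⟨ι, hι, n, f, hn, hf, hk⟩
  · left
    rintro _ ⟨a, ha, rfl⟩ _ ⟨b, hb, rfl⟩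
    exact ⟨a * b * a⁻¹ * b⁻¹, hL a ha b hb, by simp⟩
  · right
    let NB : Subgroup B := q.ker.subgroupOf B
    have hNB : NB.Normal := inferInstance
    let P : Subgroup (∀ i, alternatingGroup (Fin (n i))) := NB.map f
    have hP : P.Normal := hNB.map f hf
    let J : Type := {i : ι // ∀ y ∈ P, y i = 1}
    have hsimp : ∀ i, IsSimpleGroup (alternatingGroup (Fin (n i))) :=
      fun i => alt_simple ((hn i).eight hr)
    have hZ : ∀ i, ∀ t : alternatingGroup (Fin (n i)),
        (∀ s : alternatingGroup (Fin (n i)), s * t = t * s) → t = 1 :=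
      fun i => alt_center ((hn i).eight hr)
    have hsel : ∀ c : (B.map q : Subgroup H), ∃ b : B, q b = c := by
      rintro ⟨_, b, hb, rfl⟩
      exact ⟨⟨b, hb⟩, rfl⟩
    choose σ hσ using hsel
    have hwd : ∀ b b' : B, q b = q b' → ∀ j : J, f b j.1 = f b' j.1 := by
      intro b b' hbb j
      have h1 : f (b⁻¹ * b') ∈ P := by
        refine ⟨b⁻¹ * b', ?_, rfl⟩
        change ((b⁻¹ * b' : B) : G) ∈ q.ker
        rw [MonoidHom.mem_ker, Subgroup.coe_mul, Subgroup.coe_inv, map_mul, map_inv, hbb,
          inv_mul_cancel]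
      have h2 := j.2 _ h1
      rw [map_mul, map_inv, Pi.mul_apply, Pi.inv_apply, inv_mul_eq_one] at h2
      exact h2
    let f' : (B.map q : Subgroup H) →* (∀ j : J, alternatingGroup (Fin (n j.1))) :=
      { toFun := fun c j => f (σ c) j.1
        map_one' := by
          funext j
          rw [hwd (σ 1) 1 (by rw [hσ]; simp) j, map_one]; rfl
        map_mul' := by
          intro a b
          funext j
          rw [hwd (σ (a * b)) (σ a * σ b) (by rw [hσ, Subgroup.coe_mul (B), map_mul, hσ, hσ]; rfl) j,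
            map_mul]; rfl }
    refine ⟨J, inferInstance, fun j => n j.1, f', fun j => hn j.1, ?_, ?_⟩
    · intro z
      let x : ∀ i, alternatingGroup (Fin (n i)) := fun i =>
        if h : ∀ y ∈ P, y i = 1 then z ⟨i, h⟩ else 1
      obtain ⟨b, hb⟩ := hf x
      refine ⟨⟨q b, b, b.2, rfl⟩, ?_⟩
      funext j
      change f (σ _) j.1 = z j
      rw [hwd (σ ⟨q b, b, b.2, rfl⟩) b (hσ _) j, hb]
      simp only [x, dif_pos j.2]
      rfl
    · ext c
      rw [MonoidHom.mem_ker, Subgroup.mem_subgroupOf]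
      constructor
      · intro hc
        have h1 : f (σ c) ∈ P := by
          refine mem_of_support hsimp hZ P hP _ ?_
          intro i hi
          by_contra hcon
          push Not at hcon
          exact hi (congrFun hc ⟨i, hcon⟩)
        obtain ⟨b, hb, hbc⟩ := h1
        have h2 : σ c * b⁻¹ ∈ f.ker := by
          rw [MonoidHom.mem_ker, map_mul, map_inv, hbc, mul_inv_cancel]
        rw [hk, Subgroup.mem_subgroupOf] at h2
        refine ⟨_, h2, ?_⟩
        have hb' : q (b : G) = 1 := hb
        rw [Subgroup.coe_mul, Subgroup.coe_inv, map_mul, map_inv, hb', inv_one, mul_one, hσ]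
      · rintro ⟨a, ha, hac⟩
        have ha' : (⟨a, hAB ha⟩ : B) ∈ f.ker := by
          rw [hk, Subgroup.mem_subgroupOf]
          exact ha
        rw [MonoidHom.mem_ker] at ha'
        funext j
        change f (σ c) j.1 = 1
        rw [hwd (σ c) ⟨a, hAB ha⟩ (by rw [hσ]; exact hac.symm) j, ha']
        rfl

lemma Layer.subgroupOf {A B N : Subgroup G} (hAB : A ≤ B) (hBN : B ≤ N) (hL : Layer r A B) :
    Layer r (A.subgroupOf N) (B.subgroupOf N) := by
  rcases hL with hL | ⟨ι, hι, n, f, hn, hf, hk⟩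
  · left
    intro a ha b hb
    exact hL a ha b hb
  · right
    let e : B.subgroupOf N ≃* B := Subgroup.subgroupOfEquivOfLe hBN
    refine ⟨ι, hι, n, f.comp e.toMonoidHom, hn, hf.comp e.surjective, ?_⟩
    ext b
    rw [MonoidHom.mem_ker, Subgroup.mem_subgroupOf]
    have h1 : (f.comp e.toMonoidHom) b = 1 ↔ e b ∈ f.ker := by
      rw [MonoidHom.mem_ker]; rfl
    rw [h1, hk, Subgroup.mem_subgroupOf]
    rfl

lemma Chn.normal {B : Subgroup G} (h : Chn r B) : B.Normal := by
  cases h with
  | bot => infer_instance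
  | step A B hA hB hAB hL h => exact hB

lemma Chn.inf (hr : 2 ≤ r) {B : Subgroup G} (h : Chn r B) (N : Subgroup G) (hN : N.Normal) :
    Chn r (B ⊓ N) := by
  induction h with
  | bot => rw [bot_inf_eq]; exact Chn.bot
  | step A B hA hB hAB hL h ih =>
    exact Chn.step (A ⊓ N) (B ⊓ N) inferInstance inferInstance (inf_le_inf_right N hAB)
      (hL.inf hr hA hB hAB N hN) ih

lemma Chn.map (hr : 2 ≤ r) {B : Subgroup G} (h : Chn r B) {H : Type u} [Group H] (q : G →* H)
    (hq : Function.Surjective q) : Chn r (B.map q) := by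
  induction h with
  | bot => rw [Subgroup.map_bot]; exact Chn.bot
  | step A B hA hB hAB hL h ih =>
    exact Chn.step (A.map q) (B.map q) (hA.map q hq) (hB.map q hq) (Subgroup.map_mono hAB)
      (hL.map hr hA hB hAB q hq) ih

lemma Chn.subgroupOf {B : Subgroup G} (h : Chn r B) (N : Subgroup G) (hBN : B ≤ N) :
    Chn r (B.subgroupOf N) := by
  induction h with
  | bot =>
    have : (⊥ : Subgroup G).subgroupOf N = ⊥ := by
      rw [Subgroup.subgroupOf_eq_bot]
      exact disjoint_bot_left
    rw [this]; exact Chn.bot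
  | step A B hA hB hAB hL h ih =>
    exact Chn.step (A.subgroupOf N) (B.subgroupOf N) inferInstance inferInstance
      (Subgroup.comap_mono hAB) (hL.subgroupOf hAB hBN) (ih (hAB.trans hBN))

end closure

end Pool.Agent.H302R7
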