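import Pool.Agent.H302R7.Const
import Pool.Agent.H302R2.DedekindTwo
import Pool.Agent.H302R2.Kernel

/-!
# Abelian normal subgroups and central components
-/

set_option autoImplicit false
set_option linter.unusedSectionVars false

namespace Pool.Agent.H302R7

open Pool.Agent.H302R2 Pool.Agent.H302R5 Pool.Agent.H302R6

universe u

section

variable {G : Type u} [Group G] [Finite G] {θ : G → ℂ}

/-- stabilizer of a linear character of a normal subgroup -/
def stab (V : Subgroup G) [V.Normal] (ψ : V →* ℂˣ) : Subgroup G where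
  carrier := {g | ∀ v : V, ψ (MulAut.conjNormal g v) = ψ v}
  mul_mem' := by
    intro a b ha hb v
    rw [map_mul, MulAut.mul_apply, ha, hb]
  one_mem' := by
    intro v
    rw [map_one, MulAut.one_apply]
  inv_mem' := by
    intro a ha v
    rw [← ha (MulAut.conjNormal a⁻¹ v), ← MulAut.mul_apply, ← map_mul, mul_inv_cancel,
      map_one, MulAut.one_apply]

lemma mem_stab {V : Subgroup G} [V.Normal] {ψ : V →* ℂˣ} {g : G} :
    g ∈ stab V ψ ↔ ∀ v : V, ψ (MulAut.conjNormal g v) = ψ v := Iff.rfl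

open Classical in
lemma count_conj (hconj : ∀ g h : G, θ (h * g * h⁻¹) = θ g) (V : Subgroup G) [V.Normal]
    (s : Multiset (V →* ℂˣ)) (hs : ∀ v : V, θ v = (s.map (fun ψ => ((ψ v : ℂˣ) : ℂ))).sum)
    (ψ : V →* ℂˣ) (g : G) :
    s.count (ψ.comp (MulAut.conjNormal g : V ≃* V).toMonoidHom) = s.count ψ := by
  have hV : (Nat.card V : ℂ) ≠ 0 := by exact_mod_cast Nat.card_pos.ne'
  have h1 := count_mult s (ψ.comp (MulAut.conjNormal g : V ≃* V).toMonoidHom)
  have h2 := count_mult s ψ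
  have h3 : ∑ᶠ q : V, (s.map (fun ψ => ((ψ q : ℂˣ) : ℂ))).sum *
      (((ψ.comp (MulAut.conjNormal g : V ≃* V).toMonoidHom q)⁻¹ : ℂˣ) : ℂ)
      = ∑ᶠ q : V, (s.map (fun ψ => ((ψ q : ℂˣ) : ℂ))).sum * (((ψ q)⁻¹ : ℂˣ) : ℂ) := by
    have e := finsum_comp_equiv (MulAut.conjNormal g : V ≃* V).toEquiv
      (f := fun q : V => (s.map (fun ψ => ((ψ q : ℂˣ) : ℂ))).sum * (((ψ q)⁻¹ : ℂˣ) : ℂ))
    rw [← e]
    refine finsum_congr fun q => ?_
    change _ = (s.map (fun ψ => ((ψ (MulAut.conjNormal g q) : ℂˣ) : ℂ))).sum *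
      (((ψ (MulAut.conjNormal g q))⁻¹ : ℂˣ) : ℂ)
    rw [← hs, ← hs, MulAut.conjNormal_apply, hconj]
    rfl
  rw [h3, h2] at h1
  have h4 := mul_right_cancel₀ hV h1
  exact_mod_cast h4.symm

open Classical in
/-- the orbit of a constituent -/
lemma orbit_index (hconj : ∀ g h : G, θ (h * g * h⁻¹) = θ g) (V : Subgroup G) [V.Normal]
    (s : Multiset (V →* ℂˣ)) (hs : ∀ v : V, θ v = (s.map (fun ψ => ((ψ v : ℂˣ) : ℂ))).sum)
    (ψ : V →* ℂˣ) : (stab V ψ).index * s.count ψ ≤ Multiset.card s := by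
  have : Fintype (G ⧸ stab V ψ) := Fintype.ofFinite _
  let F : G ⧸ stab V ψ → (V →* ℂˣ) := fun c =>
    ψ.comp (MulAut.conjNormal (c.out)⁻¹ : V ≃* V).toMonoidHom
  have hF : Function.Injective F := by
    intro a b hab
    rw [← QuotientGroup.out_eq' a, ← QuotientGroup.out_eq' b, QuotientGroup.eq]
    intro v
    have h1 := DFunLike.congr_fun hab (MulAut.conjNormal b.out v)
    change ψ (MulAut.conjNormal (a.out)⁻¹ (MulAut.conjNormal b.out v))
      = ψ (MulAut.conjNormal (b.out)⁻¹ (MulAut.conjNormal b.out v)) at h1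
    rw [← MulAut.mul_apply, ← map_mul, ← MulAut.mul_apply, ← map_mul, inv_mul_cancel, map_one,
      MulAut.one_apply] at h1
    exact h1
  have h1 : ∑ χ ∈ Finset.univ.image F, s.count χ ≤ Multiset.card s := by
    calc ∑ χ ∈ Finset.univ.image F, s.count χ
        = ∑ χ ∈ Finset.univ.image F, (s.filter (· ∈ Finset.univ.image F)).count χ := by
          refine Finset.sum_congr rfl fun χ hχ => ?_
          rw [Multiset.count_filter_of_pos hχ]
      _ = Multiset.card (s.filter (· ∈ Finset.univ.image F)) := by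
          apply Multiset.sum_count_eq_card
          intro a ha
          exact (Multiset.mem_filter.mp ha).2
      _ ≤ Multiset.card s := Multiset.card_le_card (Multiset.filter_le _ s)
  have h2 : ∑ χ ∈ Finset.univ.image F, s.count χ = (stab V ψ).index * s.count ψ := by
    rw [Finset.sum_congr rfl (g := fun _ => s.count ψ), Finset.sum_const, smul_eq_mul,
      Finset.card_image_of_injective _ hF, Finset.card_univ, ← Nat.card_eq_fintype_card]
    · rfl
    · intro χ hχ
      obtain ⟨c, -, rfl⟩ := Finset.mem_image.mp hχ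
      exact count_conj hconj V s hs ψ _
  rw [← h2]
  exact h1

lemma map_one_sum {V : Subgroup G} (s : Multiset (V →* ℂˣ)) (v : V)
    (h : ∀ ψ ∈ s, ψ v = 1) : (s.map (fun ψ => ((ψ v : ℂˣ) : ℂ))).sum = Multiset.card s := by
  rw [Multiset.map_congr rfl (g := fun _ => (1 : ℂ)) (fun ψ hψ => by rw [h ψ hψ]; rfl)]
  simp

/-- A group without subgroups of small index acts trivially: `θ = θ 1` on `[G, V]`. -/
lemma comm_kernel (hθ : IsHeilbronn θ) {r : ℕ} (hr : θ 1 = r)
    (hidx : ∀ H : Subgroup G, H.index ≤ r → H = ⊤) (V : Subgroup G) [V.Normal]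
    (hV : ∀ a b : V, a * b = b * a) :
    ∀ w ∈ ⁅(⊤ : Subgroup G), V⁆, θ w = θ 1 := by
  classical
  obtain ⟨s, hs⟩ := (hθ.comp V.subtype).comm_multiset hV
  simp only [Subgroup.coe_subtype] at hs
  have hcard : Multiset.card s = r := by
    have h1 := hs 1
    rw [Subgroup.coe_one, hr, map_one_sum s 1 (fun ψ _ => map_one ψ)] at h1
    exact_mod_cast h1.symm
  have hst : ∀ ψ ∈ s, stab V ψ = ⊤ := by
    intro ψ hψ
    apply hidx
    have h1 := orbit_index hθ.conj V s hs ψ
    have h2 : 1 ≤ s.count ψ := Multiset.one_le_count_iff_mem.mpr hψ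
    rw [hcard] at h1
    calc (stab V ψ).index = (stab V ψ).index * 1 := (mul_one _).symm
      _ ≤ (stab V ψ).index * s.count ψ := Nat.mul_le_mul_left _ h2
      _ ≤ r := h1
  let K : Subgroup V :=
    { carrier := {v | ∀ ψ ∈ s, ψ v = 1}
      mul_mem' := by
        intro a b ha hb ψ hψ
        rw [map_mul, ha ψ hψ, hb ψ hψ, mul_one]
      one_mem' := fun ψ _ => map_one ψ
      inv_mem' := by
        intro a ha ψ hψ
        rw [map_inv, ha ψ hψ, inv_one] }
  have hK : ⁅(⊤ : Subgroup G), V⁆ ≤ K.map V.subtype := by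
    rw [Subgroup.commutator_le]
    intro g _ v hv
    have h1 : g * v * g⁻¹ * v⁻¹ ∈ V := mul_mem (‹V.Normal›.conj_mem v hv g) (inv_mem hv)
    refine ⟨⟨_, h1⟩, ?_, rfl⟩
    intro ψ hψ
    have h2 := hst ψ hψ
    have h3 : g ∈ stab V ψ := by rw [h2]; exact Subgroup.mem_top g
    have h4 := mem_stab.mp h3 ⟨v, hv⟩
    have h5 : (⟨_, h1⟩ : V) = MulAut.conjNormal g ⟨v, hv⟩ * (⟨v, hv⟩ : V)⁻¹ := by
      apply Subtype.ext
      rw [Subgroup.coe_mul, MulAut.conjNormal_apply, Subgroup.coe_inv]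
    rw [h5, map_mul, map_inv, h4, mul_inv_cancel]
  intro w hw
  obtain ⟨v, hv, rfl⟩ := hK hw
  rw [Subgroup.coe_subtype, hs v, map_one_sum s v hv, hcard, hr]

/-- the component of `θ` over a character of a central subgroup -/
noncomputable def cpart (Z : Subgroup G) (l : Z →* ℂˣ) (θ : G → ℂ) (g : G) : ℂ :=
  (Nat.card Z : ℂ)⁻¹ * ∑ᶠ z : Z, θ (z * g) * (((l z)⁻¹ : ℂˣ) : ℂ)

lemma cpart_mul (Z : Subgroup G) (l : Z →* ℂˣ) (z : Z) (g : G) :
    cpart Z l θ (z * g) = ((l z : ℂˣ) : ℂ) * cpart Z l θ g := by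
  unfold cpart
  have : Fintype Z := Fintype.ofFinite _
  rw [finsum_eq_sum_of_fintype, finsum_eq_sum_of_fintype, mul_left_comm]
  congr 1
  rw [← Equiv.sum_comp (Equiv.mulRight z) (fun y : Z => θ (y * g) * (((l y)⁻¹ : ℂˣ) : ℂ)),
    Finset.mul_sum]
  refine Finset.sum_congr rfl fun y _ => ?_
  rw [Equiv.coe_mulRight, Subgroup.coe_mul, mul_assoc, map_mul, mul_inv]
  push_cast
  have h1 : ((l z : ℂˣ) : ℂ) ≠ 0 := (l z).ne_zero
  field_simp

lemma cpart_isHeilbronn (hθ : IsHeilbronn θ) (Z : Subgroup G) (hZ : Z ≤ Subgroup.center G)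
    (l : Z →* ℂˣ) : IsHeilbronn (cpart Z l θ) where
  conj g h := by
    unfold cpart
    congr 1
    refine finsum_congr fun z => ?_
    have h1 : (z : G) * (h * g * h⁻¹) = h * (z * g) * h⁻¹ := by
      have := Subgroup.mem_center_iff.mp (hZ z.2) h
      calc (z : G) * (h * g * h⁻¹) = (z * h) * g * h⁻¹ := by group
        _ = (h * z) * g * h⁻¹ := by rw [this]
        _ = _ := by group
    rw [h1, hθ.conj]
  mult U χ := by
    have : Fintype Z := Fintype.ofFinite _
    have : Fintype U := Fintype.ofFinite _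
    let m : Z × U →* G :=
      { toFun := fun e => (e.1 : G) * e.2
        map_one' := by simp
        map_mul' := by
          rintro ⟨a, b⟩ ⟨c, d⟩
          have := Subgroup.mem_center_iff.mp (hZ c.2) b
          simp only [Prod.mk_mul_mk, Subgroup.coe_mul]
          calc (a : G) * c * (b * d) = a * (c * b) * d := by group
            _ = a * (b * c) * d := by rw [this]
            _ = _ := by group }
    let χ' : Z × U →* ℂˣ := (l.comp (MonoidHom.fst Z U)) * (χ.comp (MonoidHom.snd Z U))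
    obtain ⟨n, hn⟩ := hθ.mult_hom m χ'
    refine ⟨n, ?_⟩
    have hZc : (Nat.card Z : ℂ) ≠ 0 := by exact_mod_cast Nat.card_pos.ne'
    rw [Fintype.sum_prod_type, Nat.card_prod] at hn
    apply mul_left_cancel₀ hZc
    rw [finsum_eq_sum_of_fintype]
    unfold cpart
    have h1 : (Nat.card Z : ℂ) * ∑ x : U, ((Nat.card Z : ℂ)⁻¹ *
        ∑ᶠ z : Z, θ (z * x) * (((l z)⁻¹ : ℂˣ) : ℂ)) * (((χ x)⁻¹ : ℂˣ) : ℂ)
        = ∑ z : Z, ∑ x : U, θ (m (z, x)) * (((χ' (z, x))⁻¹ : ℂˣ) : ℂ) := by
      rw [Finset.sum_comm, Finset.mul_sum]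
      refine Finset.sum_congr rfl fun x _ => ?_
      rw [finsum_eq_sum_of_fintype, mul_assoc, ← mul_assoc (Nat.card Z : ℂ),
        mul_inv_cancel₀ hZc, one_mul, Finset.sum_mul]
      refine Finset.sum_congr rfl fun z _ => ?_
      change _ = θ (z * x) * (((l z * χ x)⁻¹ : ℂˣ) : ℂ)
      rw [mul_inv]
      push_cast
      ring
    rw [h1, hn]
    push_cast
    ring

lemma cpart_one_le (hθ : IsHeilbronn θ) {r : ℕ} (hr : θ 1 = r) (Z : Subgroup G)
    (hZ : Z ≤ Subgroup.center G) (l : Z →* ℂˣ) :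
    ∃ r' : ℕ, r' ≤ r ∧ cpart Z l θ 1 = r' := by
  obtain ⟨r', hr'⟩ := (cpart_isHeilbronn hθ Z hZ l).exists_deg
  refine ⟨r', ?_, hr'⟩
  have : Fintype Z := Fintype.ofFinite _
  have hZc : (0 : ℝ) < Nat.card Z := by exact_mod_cast Nat.card_pos
  have h1 : ‖cpart Z l θ 1‖ ≤ r := by
    unfold cpart
    rw [norm_mul, norm_inv, Complex.norm_natCast, inv_mul_le_iff₀ hZc, finsum_eq_sum_of_fintype]
    calc ‖∑ z : Z, θ (z * 1) * (((l z)⁻¹ : ℂˣ) : ℂ)‖
        ≤ ∑ z : Z, ‖θ (z * 1) * (((l z)⁻¹ : ℂˣ) : ℂ)‖ := norm_sum_le _ _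
      _ ≤ ∑ _z : Z, (r : ℝ) := by
          refine Finset.sum_le_sum fun z _ => ?_
          have h2 := hθ.norm_le (z * 1)
          rw [hr, Complex.natCast_re] at h2
          have h3 : ‖(((l z)⁻¹ : ℂˣ) : ℂ)‖ = 1 := by
            have h4 : (l z)⁻¹ ^ (Nat.card Z) = 1 := by
              rw [inv_pow, ← map_pow, pow_card_eq_one', map_one, inv_one]
            have h5 : ((((l z)⁻¹ : ℂˣ) : ℂ)) ^ (Nat.card Z) = 1 := by
              rw [← Units.val_pow_eq_pow_val, h4, Units.val_one]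
            exact Complex.norm_eq_one_of_pow_eq_one h5 Nat.card_pos.ne'
          rw [norm_mul, h3, mul_one]
          exact h2
      _ = (Nat.card Z : ℝ) * r := by
          rw [Finset.sum_const, Finset.card_univ, nsmul_eq_mul, Nat.card_eq_fintype_card]
  rw [hr', Complex.norm_natCast] at h1
  exact_mod_cast h1

/-- if all nontrivial components vanish then `θ` is constant on the central subgroup -/
lemma const_on_center (Z : Subgroup G) (hZ : Z ≤ Subgroup.center G)
    (h : ∀ l : Z →* ℂˣ, l ≠ 1 → cpart Z l θ 1 = 0) : ∀ z ∈ Z, θ z = θ 1 := by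
  classical
  have : Fintype Z := Fintype.ofFinite _
  have hZc : (Nat.card Z : ℂ) ≠ 0 := by exact_mod_cast Nat.card_pos.ne'
  have hcomm : ∀ a b : Z, a * b = b * a := fun a b =>
    Subtype.ext (Subgroup.mem_center_iff.mp (hZ b.2) a)
  set c := cpart Z 1 θ 1 with hc
  have h1 : ∀ z : Z, θ z - c = 0 := by
    refine zero_of_coeff hcomm (fun z : Z => θ z - c) ?_
    intro l
    rw [finsum_eq_sum_of_fintype]
    simp only [sub_mul]
    rw [Finset.sum_sub_distrib, ← Finset.mul_sum]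
    by_cases hl : l = 1
    · subst hl
      simp only [MonoidHom.one_apply, inv_one, Units.val_one, mul_one]
      rw [hc]
      unfold cpart
      rw [finsum_eq_sum_of_fintype]
      simp only [MonoidHom.one_apply, inv_one, Units.val_one, mul_one]
      rw [Finset.sum_const, Finset.card_univ, nsmul_eq_mul, mul_one, ← Nat.card_eq_fintype_card]
      field_simp
      ring
    · have h2 := h l hl
      unfold cpart at h2
      rw [finsum_eq_sum_of_fintype] at h2
      have h3 := (mul_eq_zero.mp h2).resolve_left (inv_ne_zero hZc)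
      simp only [mul_one] at h3
      rw [h3]
      have hl' : l⁻¹ ≠ 1 := by
        intro h
        apply hl
        apply MonoidHom.ext
        intro x
        have h5 := DFunLike.congr_fun h x
        rw [MonoidHom.inv_apply, MonoidHom.one_apply, inv_eq_one] at h5
        rw [h5, MonoidHom.one_apply]
      have h4 := finsum_char_eq_zero (l⁻¹) hl'
      rw [finsum_eq_sum_of_fintype] at h4
      have h5 : ∑ z : Z, (((l z)⁻¹ : ℂˣ) : ℂ) = 0 := h4
      rw [h5, mul_zero, sub_zero]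
  intro z hz
  have h2 := h1 ⟨z, hz⟩
  have h3 := h1 1
  rw [sub_eq_zero] at h2 h3
  rw [h2]
  exact h3.symm

end

end Pool.Agent.H302R7
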