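import Pool.Agent.H302R7.Rig

/-!
# Heilbronn functions of small degree factor through the largest solvable quotient
-/

set_option autoImplicit false
set_option linter.unusedSectionVars false

namespace Pool.Agent.H302R7

open Pool.Agent.H302R2 Pool.Agent.H302R5 Pool.Agent.H302R6

universe u

section

variable {G : Type u} [Group G] [Finite G]

lemma exists_stable : ∃ i, ⁅derivedSeries G i, derivedSeries G i⁆ = derivedSeries G i := by
  have hanti : Antitone (derivedSeries G) := derivedSeries_antitone G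
  obtain ⟨i, j, hij, he⟩ := Finite.exists_ne_map_eq_of_infinite (derivedSeries G)
  wlog hlt : i < j generalizing i j
  · exact this j i hij.symm he.symm (lt_of_le_of_ne (not_lt.mp hlt) hij.symm)
  refine ⟨i, le_antisymm (Subgroup.commutator_le_left _ _) ?_⟩
  rw [← derivedSeries_succ]
  calc derivedSeries G i = derivedSeries G j := he
    _ ≤ derivedSeries G (i + 1) := hanti hlt

theorem resid_of_chn {r : ℕ} (hr2 : 2 ≤ r) (hch : Chn r (⊤ : Subgroup G)) {θ : G → ℂ}
    (hθ : IsHeilbronn θ) (hr : θ 1 = r) :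
    ∃ i, ∀ x ∈ derivedSeries G i, ∀ g, θ (x * g) = θ g := by
  obtain ⟨i, hi⟩ := exists_stable (G := G)
  have hn : (derivedSeries G i).Normal := inferInstance
  refine ⟨i, ?_⟩
  have h1 := chn_sub hr2 hch (derivedSeries G i)
  apply const_chain hr2 hθ h1.1
  intro x hx
  exact rig hr2 (perf_sub _ hi) h1.2 (hθ.comp (derivedSeries G i).subtype) le_rfl hr ⟨x, hx⟩

theorem main (θ : G → ℂ) (hθ : IsHeilbronn θ) (r : ℕ)
    (hr : θ 1 = r) (l : ℕ) (N : ℕ → Subgroup G) (h0 : N 0 = ⊥) (hl : N l = ⊤)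
    (hnorm : ∀ j ≤ l, (N j).Normal) (hle : ∀ j < l, N j ≤ N (j + 1))
    (hlayer : ∀ j < l, (∀ a ∈ N (j + 1), ∀ b ∈ N (j + 1), a * b * a⁻¹ * b⁻¹ ∈ N j) ∨
      ∃ (m : ℕ) (n k : Fin m → ℕ)
        (f : N (j + 1) →* (∀ i : Fin m, alternatingGroup (Fin (n i)))),
        (∀ i, r < 2 ^ (n i / 4) ∧ 2 ≤ k i ∧ r < (2 ^ k i - 1) * (n i / 2 ^ k i)) ∧
        Function.Surjective f ∧ f.ker = (N j).subgroupOf (N (j + 1))) :
    ∃ i, ∀ x ∈ derivedSeries G i, ∀ g, θ (x * g) = θ g := by
  rcases Nat.lt_or_ge r 2 with h2 | h2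
  · interval_cases r
    · refine ⟨0, fun x _ g => ?_⟩
      have h3 : ∀ g, θ g = 0 := by
        intro g
        have h4 := hθ.norm_le g
        rw [hr, Nat.cast_zero, Complex.zero_re] at h4
        exact norm_le_zero_iff.mp h4
      rw [h3, h3]
    · obtain ⟨ψ, hψ⟩ := hθ.deg_one (by rw [hr, Nat.cast_one])
      refine ⟨1, fun x hx g => ?_⟩
      rw [derivedSeries_one] at hx
      have h3 : ψ x = 1 := MonoidHom.mem_ker.mp (Abelianization.commutator_subset_ker ψ hx)
      rw [hψ, hψ, map_mul, h3, one_mul]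
  · apply resid_of_chn h2 _ hθ hr
    have key : ∀ j ≤ l, Chn r (N j) := by
      intro j
      induction j with
      | zero => intro _; rw [h0]; exact Chn.bot
      | succ j ih =>
        intro hj
        refine Chn.step (N j) (N (j + 1)) (hnorm j (by omega)) (hnorm (j + 1) hj)
          (hle j (by omega)) ?_ (ih (by omega))
        rcases hlayer j (by omega) with h | ⟨m, n, k, f, hn, hf, hk⟩
        · exact Or.inl h
        · exact Or.inr ⟨Fin m, inferInstance, n, f, fun i => ⟨(hn i).1, k i, (hn i).2⟩, hf, hk⟩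
    rw [← hl]
    exact key l le_rfl

end

end Pool.Agent.H302R7
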