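import Pool.Agent.H302R7.Chain

/-!
# Perfect groups with a normal chain
-/

set_option autoImplicit false
set_option linter.unusedSectionVars false

namespace Pool.Agent.H302R7

open scoped Nat

universe u

section

variable {r : ℕ} {G : Type u} [Group G] [Finite G]

/-- order at least that of an allowed alternating group -/
def Big (r N : ℕ) : Prop := ∃ n, Small r n ∧ n ! ≤ 2 * N

lemma Big.mono {N N' : ℕ} (h : Big r N) (hN : N ≤ N') : Big r N' := by
  obtain ⟨n, h1, h2⟩ := h
  exact ⟨n, h1, h2.trans (by omega)⟩

lemma two_card_alt {n : ℕ} (h : 2 ≤ n) : 2 * Nat.card (alternatingGroup (Fin n)) = n ! := by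
  have : Nontrivial (Fin n) := Fin.nontrivial_iff_two_le.mpr h
  rw [two_mul_nat_card_alternatingGroup, Nat.card_perm, Nat.card_eq_fintype_card, Fintype.card_fin]

lemma card_le_of_surj {H : Type*} [Group H] (f : G →* H) (hf : Function.Surjective f) :
    Nat.card H ≤ Nat.card G := Nat.card_le_card_of_surjective f hf

/-- quotients of products project to the factors -/
lemma Chn.solvable_or_big (hr : 2 ≤ r) {B : Subgroup G} (h : Chn r B) :
    Group.IsSolvable B ∨ Big r (Nat.card B) := by
  classical
  induction h with
  | bot => left; infer_instance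
  | step A B hA hB hAB hL h ih =>
    rcases hL with hL | ⟨ι, hι, n, f, hn, hf, hk⟩
    · rcases ih with ih | ih
      · left
        have hs : Group.IsSolvable (A.subgroupOf B) := by
          have := ih
          exact solvable_of_solvable_injective (f := (Subgroup.subgroupOfEquivOfLe hAB).toMonoidHom)
            (Subgroup.subgroupOfEquivOfLe hAB).injective
        have hq : Group.IsSolvable (B ⧸ A.subgroupOf B) := by
          apply isSolvable_of_comm
          intro x y
          induction x using QuotientGroup.induction_on with | _ x => ?_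
          induction y using QuotientGroup.induction_on with | _ y => ?_
          rw [← QuotientGroup.mk_mul, ← QuotientGroup.mk_mul, ← mul_inv_eq_one,
            ← QuotientGroup.mk_inv, ← QuotientGroup.mk_mul, QuotientGroup.eq_one_iff,
            Subgroup.mem_subgroupOf]
          have := hL x x.2 y y.2
          have e : ((x * y * (y * x)⁻¹ : B) : G) = x * y * (x : G)⁻¹ * (y : G)⁻¹ := by
            push_cast; group
          rw [e]; exact this
        exact solvable_of_ker_le_range (A.subgroupOf B).subtype (QuotientGroup.mk' (A.subgroupOf B))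
          (by rw [QuotientGroup.ker_mk', Subgroup.range_subtype])
      · right
        exact ih.mono (Nat.card_le_card_of_injective _ (Subgroup.inclusion_injective hAB))
    · by_cases hne : Nonempty ι
      · right
        obtain ⟨i⟩ := hne
        refine ⟨n i, hn i, ?_⟩
        rw [← two_card_alt (by have := (hn i).eight hr; omega)]
        apply Nat.mul_le_mul_left
        let g : B →* alternatingGroup (Fin (n i)) := (Pi.evalMonoidHom _ i).comp f
        have hg : Function.Surjective g := (Function.surjective_eval i).comp hf
        exact Nat.card_le_card_of_surjective g hg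
      · rw [not_nonempty_iff] at hne
        have hBA : B ≤ A := by
          intro b hb
          have h1 : (⟨b, hb⟩ : B) ∈ f.ker := by
            rw [MonoidHom.mem_ker]; exact Subsingleton.elim _ _
          rw [hk, Subgroup.mem_subgroupOf] at h1
          exact h1
        have : B = A := le_antisymm hBA hAB
        rw [this]; exact ih

/-- a perfect solvable group is trivial -/
lemma subsingleton_of_perfect (hp : commutator G = ⊤) (hs : Group.IsSolvable G) :
    Subsingleton G := by
  obtain ⟨k, hk⟩ := hs.solvable
  have h1 : ∀ k, derivedSeries G k = ⊤ := by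
    intro k
    induction k with
    | zero => rfl
    | succ k ih => rw [derivedSeries_succ, ih]; exact hp
  rw [h1] at hk
  exact Subgroup.subsingleton_iff.mp ⟨fun a b => by
    have h2 : ∀ c : Subgroup G, c = ⊤ := fun c => top_le_iff.mp (hk ▸ bot_le)
    rw [h2 a, h2 b]⟩

lemma commutator_map {H : Type*} [Group H] (q : G →* H) (hq : Function.Surjective q)
    (hp : commutator G = ⊤) : commutator H = ⊤ := by
  rw [commutator_def] at hp ⊢
  have h1 := Subgroup.map_commutator (⊤ : Subgroup G) ⊤ q
  rw [hp, Subgroup.map_top_of_surjective q hq] at h1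
  exact h1.symm

/-- homomorphisms from perfect groups to commutative groups are trivial -/
lemma hom_trivial {A : Type*} [CommGroup A] (hp : commutator G = ⊤) (ψ : G →* A) (g : G) :
    ψ g = 1 := by
  have h1 : commutator G ≤ ψ.ker := Abelianization.commutator_subset_ker ψ
  rw [hp] at h1
  exact MonoidHom.mem_ker.mp (h1 (Subgroup.mem_top g))

/-- A nontrivial perfect group with a chain maps onto an allowed alternating group. -/
lemma Chn.exists_top (hr : 2 ≤ r) (hp : commutator G = ⊤) (hnt : Nontrivial G) {B : Subgroup G}
    (h : Chn r B) (hB : B = ⊤) : ∃ (n : ℕ) (π : G →* alternatingGroup (Fin n)), Small r n ∧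
      Function.Surjective π := by
  induction h with
  | bot =>
    exfalso
    exact bot_ne_top hB
  | step A B hA hB' hAB hL h ih =>
    subst hB
    rcases hL with hL | ⟨ι, hι, n, f, hn, hf, hk⟩
    · apply ih
      rw [eq_top_iff, ← hp, commutator_def, Subgroup.commutator_le]
      intro a _ b _
      exact hL a (Subgroup.mem_top a) b (Subgroup.mem_top b)
    · by_cases hne : Nonempty ι
      · obtain ⟨i⟩ := hne
        let g : G →* alternatingGroup (Fin (n i)) :=
          ((Pi.evalMonoidHom _ i).comp f).comp Subgroup.topEquiv.symm.toMonoidHom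
        refine ⟨n i, g, hn i, ?_⟩
        exact ((Function.surjective_eval i).comp hf).comp Subgroup.topEquiv.symm.surjective
      · rw [not_nonempty_iff] at hne
        apply ih
        rw [eq_top_iff]
        intro b hb
        have h1 : (⟨b, hb⟩ : (⊤ : Subgroup G)) ∈ f.ker := by
          rw [MonoidHom.mem_ker]; exact Subsingleton.elim _ _
        rw [hk, Subgroup.mem_subgroupOf] at h1
        exact h1

/-- A nontrivial perfect quotient of a group with a chain is big. -/
lemma big_quotient (hr : 2 ≤ r) (hp : commutator G = ⊤) (h : Chn r (⊤ : Subgroup G))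
    (N : Subgroup G) [N.Normal] (hN : N ≠ ⊤) : Big r (Nat.card (G ⧸ N)) := by
  have h1 : Chn r (⊤ : Subgroup (G ⧸ N)) := by
    have := h.map hr (QuotientGroup.mk' N) (QuotientGroup.mk'_surjective N)
    rwa [Subgroup.map_top_of_surjective _ (QuotientGroup.mk'_surjective N)] at this
  have hp' : commutator (G ⧸ N) = ⊤ :=
    commutator_map (QuotientGroup.mk' N) (QuotientGroup.mk'_surjective N) hp
  rcases h1.solvable_or_big hr with h2 | h2
  · exfalso
    have h3 : Group.IsSolvable (G ⧸ N) := by
      have := h2
      exact solvable_of_surjective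
        (f := (Subgroup.topEquiv : (⊤ : Subgroup (G ⧸ N)) ≃* (G ⧸ N)).toMonoidHom)
        (Subgroup.topEquiv : (⊤ : Subgroup (G ⧸ N)) ≃* (G ⧸ N)).surjective
    have h4 := subsingleton_of_perfect hp' h3
    apply hN
    rw [eq_top_iff]
    intro g _
    have : (QuotientGroup.mk g : G ⧸ N) = 1 := Subsingleton.elim _ _
    rwa [QuotientGroup.eq_one_iff] at this
  · rwa [Nat.card_congr Subgroup.topEquiv.toEquiv] at h2

/-- perfect groups with a chain have no proper subgroups of small index -/
lemma eq_top_of_index_le (hr : 2 ≤ r) (hp : commutator G = ⊤) (h : Chn r (⊤ : Subgroup G))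
    (H : Subgroup G) (hH : H.index ≤ r) : H = ⊤ := by
  classical
  by_contra hne
  have hcore : H.normalCore ≠ ⊤ := fun h => hne (top_le_iff.mp (h ▸ Subgroup.normalCore_le H))
  obtain ⟨n, hn, hcard⟩ := big_quotient hr hp h H.normalCore hcore
  have h1 : Nat.card (G ⧸ H.normalCore) ≤ H.index ! := by
    have h2 : H.normalCore = (MulAction.toPermHom G (G ⧸ H)).ker := Subgroup.normalCore_eq_ker H
    have h3 : Nat.card (G ⧸ H.normalCore) ≤ Nat.card (Equiv.Perm (G ⧸ H)) := by
      have e1 : (G ⧸ H.normalCore) ≃* (G ⧸ (MulAction.toPermHom G (G ⧸ H)).ker) :=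
        QuotientGroup.quotientMulEquivOfEq h2
      rw [Nat.card_congr e1.toEquiv]
      exact Nat.card_le_card_of_injective _
        (QuotientGroup.kerLift_injective (MulAction.toPermHom G (G ⧸ H)))
    rwa [Nat.card_perm] at h3
  have h2 : H.index ! ≤ r ! := Nat.factorial_le hH
  have h3 := hn.fact_lt
  omega

end

end Pool.Agent.H302R7
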