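import Pool.Agent.H302R7.CaseA
import Pool.Agent.H302R7.CaseB5
import Pool.Agent.H302R7.Const
import Pool.Agent.H302R2.SymFinal

/-!
# Rigidity: a Heilbronn function of small degree on a perfect group with a chain is constant
-/

set_option autoImplicit false
set_option linter.unusedSectionVars false

namespace Pool.Agent.H302R7

open Pool.Agent.H302R2 Pool.Agent.H302R5 Pool.Agent.H302R6

universe u

/-- the induction hypothesis -/
def RigBelow (r N : ℕ) : Prop :=
  ∀ (E : Type u) [Group E] [Finite E], Nat.card E < N → commutator E = ⊤ →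
    Chn r (⊤ : Subgroup E) → ∀ θ : E → ℂ, IsHeilbronn θ → ∀ r' : ℕ, r' ≤ r → θ 1 = r' →
      ∀ e, θ e = θ 1

section

variable {D : Type u} [Group D] [Finite D]

lemma perf_sub (U : Subgroup D) (h : ⁅U, U⁆ = U) : commutator U = ⊤ := by
  apply Subgroup.map_injective U.subtype_injective
  rw [Subgroup.map_subtype_commutator, h, ← MonoidHom.range_eq_map, Subgroup.range_subtype]

lemma chn_sub {r : ℕ} (hr : 2 ≤ r) (hch : Chn r (⊤ : Subgroup D)) (U : Subgroup D)
    [hU : U.Normal] : Chn r U ∧ Chn r (⊤ : Subgroup U) := by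
  have h1 := hch.inf hr U hU
  rw [top_inf_eq] at h1
  refine ⟨h1, ?_⟩
  have h2 := h1.subgroupOf U le_rfl
  rwa [Subgroup.subgroupOf_self] at h2

lemma quot_step {r : ℕ} (hr : 2 ≤ r) (hperf : commutator D = ⊤) (hch : Chn r (⊤ : Subgroup D))
    (IH : RigBelow.{u} r (Nat.card D)) {θ : D → ℂ} (hθ : IsHeilbronn θ) {r' : ℕ} (hr' : r' ≤ r)
    (h1 : θ 1 = r') (N : Subgroup D) [hN : N.Normal] (hne : N ≠ ⊥) (hc : ∀ n ∈ N, θ n = θ 1) :
    ∀ d, θ d = θ 1 := by
  classical
  have : Fintype D := Fintype.ofFinite _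
  let π : D →* D ⧸ N := QuotientGroup.mk' N
  have hπ : Function.Surjective π := QuotientGroup.mk'_surjective N
  have hker : π.ker = N := QuotientGroup.ker_mk' N
  have hc2 := const_chain hr hθ (chn_sub hr hch N).1 hc
  have hpush : ∀ x, push π θ (π x) = θ x := push_mk (by rw [hker]; exact hc2)
  have hp1 : push π θ 1 = θ 1 := by rw [← hpush 1, map_one]
  have hcard : Nat.card (D ⧸ N) < Nat.card D := by
    rw [Subgroup.card_eq_card_quotient_mul_card_subgroup N]
    have h2 : 1 < Nat.card N := by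
      rw [Nat.one_lt_iff_ne_zero_and_ne_one]
      exact ⟨Nat.card_pos.ne', fun h => hne (Subgroup.card_eq_one.mp h)⟩
    have h3 : 0 < Nat.card (D ⧸ N) := Nat.card_pos
    nlinarith
  have hch' : Chn r (⊤ : Subgroup (D ⧸ N)) := by
    have := hch.map hr π hπ
    rwa [Subgroup.map_top_of_surjective π hπ] at this
  intro d
  rw [← hpush d, ← hp1]
  exact IH (D ⧸ N) hcard (commutator_map π hπ hperf) hch' (push π θ) (push_isHeilbronn hπ hθ) r' hr'
    (by rw [hp1, h1]) (π d)

lemma sub_step {r : ℕ} (hr : 2 ≤ r) (hch : Chn r (⊤ : Subgroup D))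
    (IH : RigBelow.{u} r (Nat.card D)) {θ : D → ℂ} (hθ : IsHeilbronn θ) {r' : ℕ} (hr' : r' ≤ r)
    (h1 : θ 1 = r') (U : Subgroup D) [hU : U.Normal] (hne : U ≠ ⊤) (hp : ⁅U, U⁆ = U) :
    ∀ u ∈ U, θ u = θ 1 := by
  intro u hu
  have hcard : Nat.card U < Nat.card D := by
    rcases lt_or_eq_of_le (Subgroup.card_le_card_group U) with h | h
    · exact h
    · exact absurd (Subgroup.eq_top_of_card_eq U h) hne
  exact IH U hcard (perf_sub U hp) (chn_sub hr hch U).2 (fun x => θ x) (hθ.comp U.subtype) r' hr'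
    h1 ⟨u, hu⟩

lemma center_step {r : ℕ} (hr : 2 ≤ r) (hperf : commutator D = ⊤)
    (hch : Chn r (⊤ : Subgroup D)) (IH : RigBelow.{u} r (Nat.card D)) {η : D → ℂ}
    (hη : IsHeilbronn η) {r' : ℕ} (hr' : r' ≤ r) (h1 : η 1 = r') (h0 : r' ≠ 0)
    (Z : Subgroup D) (hZ : Z = Subgroup.center D) (lam : Z →* ℂˣ) (hne : lam ≠ 1)
    (hlam : ∀ (z : Z) (g : D), η (z * g) = ((lam z : ℂˣ) : ℂ) * η g) : False := by
  classical
  have hη0 : η 1 ≠ 0 := by rw [h1]; exact_mod_cast h0
  have hmem : ∀ {z : D}, z ∈ Z → ∀ g, g * z = z * g := by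
    intro z hz g
    rw [hZ] at hz
    exact Subgroup.mem_center_iff.mp hz g
  have hnotconst : ¬ ∀ d, η d = η 1 := by
    intro h
    apply hne
    apply MonoidHom.ext
    intro z
    have h2 := hlam z 1
    rw [h] at h2
    have h3 : (1 - ((lam z : ℂˣ) : ℂ)) * η 1 = 0 := by rw [sub_mul, one_mul, ← h2, sub_self]
    rw [MonoidHom.one_apply]
    exact Units.ext (sub_eq_zero.mp ((mul_eq_zero.mp h3).resolve_right hη0)).symm
  -- no normal subgroup in the kernel
  have hstar : ∀ N : Subgroup D, N.Normal → (∀ n ∈ N, η n = η 1) → N = ⊥ := by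
    intro N hN hc
    by_contra hne
    exact hnotconst (quot_step hr hperf hch IH hη hr' h1 N hne hc)
  have hinj : Function.Injective lam := by
    rw [← MonoidHom.ker_eq_bot_iff]
    have hn : (lam.ker.map Z.subtype).Normal := by
      constructor
      rintro _ ⟨z, hz, rfl⟩ g
      refine ⟨z, hz, ?_⟩
      rw [Subgroup.coe_subtype, hmem z.2, mul_inv_cancel_right]
    have h2 := hstar _ hn (by
      rintro _ ⟨z, hz, rfl⟩
      have h3 := hlam z 1
      rw [MonoidHom.mem_ker.mp hz, Units.val_one, one_mul, mul_one] at h3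
      exact h3)
    rwa [Subgroup.map_eq_bot_iff_of_injective _ Z.subtype_injective] at h2
  have hidx := eq_top_of_index_le hr hperf hch
  have hab : ∀ V : Subgroup D, V.Normal → (∀ a b : V, a * b = b * a) → V ≤ Z := by
    intro V hV hcomm
    have h2 := comm_kernel hη h1 (fun H hH => hidx H (hH.trans hr')) V hcomm
    have h3 := hstar ⁅(⊤ : Subgroup D), V⁆ inferInstance h2
    intro v hv
    rw [hZ, Subgroup.mem_center_iff]
    intro g
    have h4 : g * v * g⁻¹ * v⁻¹ ∈ ⁅(⊤ : Subgroup D), V⁆ :=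
      Subgroup.commutator_mem_commutator (Subgroup.mem_top g) hv
    rw [h3, Subgroup.mem_bot, mul_inv_eq_one, mul_inv_eq_iff_eq_mul] at h4
    exact h4
  have hnt : Nontrivial D := by
    by_contra hcon
    rw [not_nontrivial_iff_subsingleton] at hcon
    apply hne
    apply MonoidHom.ext
    intro z
    rw [Subsingleton.elim z 1, map_one, MonoidHom.one_apply]
  obtain ⟨n, π, hn, hπ⟩ := hch.exists_top hr hperf hnt rfl
  have hn8 := hn.eight hr
  have hZM : Z ≤ π.ker := by
    intro z hz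
    rw [MonoidHom.mem_ker]
    apply alt_center hn8
    intro s
    obtain ⟨d, rfl⟩ := hπ s
    rw [← map_mul, ← map_mul, hmem hz]
  have hMtop : π.ker ≠ ⊤ := by
    intro h
    have h2 : Nontrivial (alternatingGroup (Fin n)) := (alt_simple hn8).toNontrivial
    obtain ⟨a, b, hab⟩ := h2
    apply hab
    obtain ⟨x, rfl⟩ := hπ a
    obtain ⟨y, rfl⟩ := hπ b
    have hx : x ∈ π.ker := by rw [h]; exact Subgroup.mem_top x
    have hy : y ∈ π.ker := by rw [h]; exact Subgroup.mem_top y
    rw [MonoidHom.mem_ker.mp hx, MonoidHom.mem_ker.mp hy]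
  by_cases hcase : π.ker ≤ Z
  · -- case B
    have hZeq : Z = π.ker := le_antisymm hZM hcase
    subst hZeq
    refine case_b hr hn hperf hπ (fun d hd g => hmem (MonoidHom.mem_ker.mpr hd) g) hη hr' h1 h0
      lam hlam hinj ?_
    intro hbot
    apply hne
    apply MonoidHom.ext
    intro z
    have h2 : z = 1 := by
      apply Subtype.ext
      have h3 : ∀ x : D, x ∈ π.ker → x = 1 := by
        intro x hx
        rw [hbot] at hx
        exact Subgroup.mem_bot.mp hx
      exact h3 z z.2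
    rw [h2, map_one, MonoidHom.one_apply]
  · -- case A
    let S : Set (Subgroup D) := {U | U.Normal ∧ U ≤ π.ker ∧ ¬ U ≤ Z}
    obtain ⟨U, hU⟩ := (Set.toFinite S).exists_minimal ⟨π.ker, inferInstance, le_rfl, hcase⟩
    obtain ⟨hUn, hUM, hUZ⟩ := hU.prop
    have hUtop : U ≠ ⊤ := fun h => hMtop (top_le_iff.mp (h ▸ hUM))
    have hUne : U ≠ ⊥ := fun h => hUZ (h ▸ bot_le)
    have hUU : ⁅U, U⁆ ≤ U := Subgroup.commutator_le_left U U
    have hUUZ : ⁅U, U⁆ ≤ Z := by
      by_contra hcon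
      have h2 : ⁅U, U⁆ ∈ S := ⟨inferInstance, hUU.trans hUM, hcon⟩
      have h3 : U ≤ ⁅U, U⁆ := hU.le_of_le h2 hUU
      exact hUne (hstar U hUn (sub_step hr hch IH hη hr' h1 U hUtop (le_antisymm hUU h3)))
    have hcomm : ∀ a ∈ U, ∀ b ∈ U, a * b * a⁻¹ * b⁻¹ ∈ Z := fun a ha b hb =>
      hUUZ (Subgroup.commutator_mem_commutator ha hb)
    have hcent : ∀ u ∈ U, (∀ v ∈ U, v * u = u * v) → u ∈ Z := by
      intro u hu huc
      let V : Subgroup D := U ⊓ Subgroup.centralizer (U : Set D)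
      have hVn : V.Normal := by
        constructor
        rintro v ⟨hv, hvc⟩ g
        refine ⟨hUn.conj_mem v hv g, ?_⟩
        replace hvc := Subgroup.mem_centralizer_iff.mp hvc
        refine Subgroup.mem_centralizer_iff.mpr ?_
        intro w hw
        have h2 : g⁻¹ * w * g ∈ U := by
          have := hUn.conj_mem w hw g⁻¹
          rwa [inv_inv] at this
        have h3 := hvc _ h2
        calc w * (g * v * g⁻¹) = g * ((g⁻¹ * w * g) * v) * g⁻¹ := by group
          _ = g * (v * (g⁻¹ * w * g)) * g⁻¹ := by rw [h3]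
          _ = g * v * g⁻¹ * w := by group
      refine hab V hVn ?_ ⟨hu, Subgroup.mem_centralizer_iff.mpr fun v hv => huc v hv⟩
      rintro ⟨a, ha⟩ ⟨b, hb⟩
      apply Subtype.ext
      exact Subgroup.mem_centralizer_iff.mp hb.2 a ha.1
    -- the exponent
    have hZn : Z.Normal := by rw [hZ]; infer_instance
    have hcomq : ∀ a ∈ U, ∀ b ∈ U, Commute (QuotientGroup.mk a : D ⧸ Z) (QuotientGroup.mk b) := by
      intro a ha b hb
      change (QuotientGroup.mk a : D ⧸ Z) * QuotientGroup.mk b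
        = QuotientGroup.mk b * QuotientGroup.mk a
      rw [← QuotientGroup.mk_mul, ← QuotientGroup.mk_mul, eq_comm, QuotientGroup.eq_iff_div_mem]
      have h2 := hcomm b hb a ha
      rw [div_eq_mul_inv]
      have : b * a * (a * b)⁻¹ = b * a * b⁻¹ * a⁻¹ := by group
      rw [this]
      exact h2
    obtain ⟨u₀, hu₀, hu₀Z⟩ := Set.not_subset.mp hUZ
    set m := orderOf (QuotientGroup.mk u₀ : D ⧸ Z) with hm
    have hm1 : m ≠ 1 := by
      intro h
      apply hu₀Z
      rw [hm, orderOf_eq_one_iff, QuotientGroup.eq_one_iff] at h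
      exact h
    have hm0 : m ≠ 0 := (orderOf_pos _).ne'
    obtain ⟨p, hp, hpm⟩ := Nat.exists_prime_and_dvd hm1
    obtain ⟨c, hc⟩ := hpm
    let W : Subgroup D :=
      { carrier := {u | u ∈ U ∧ (QuotientGroup.mk u : D ⧸ Z) ^ p = 1}
        mul_mem' := by
          rintro a b ⟨ha, ha1⟩ ⟨hb, hb1⟩
          refine ⟨mul_mem ha hb, ?_⟩
          rw [QuotientGroup.mk_mul, (hcomq a ha b hb).mul_pow, ha1, hb1, mul_one]
        one_mem' := ⟨one_mem U, by rw [QuotientGroup.mk_one, one_pow]⟩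
        inv_mem' := by
          rintro a ⟨ha, ha1⟩
          exact ⟨inv_mem ha, by rw [QuotientGroup.mk_inv, inv_pow, ha1, inv_one]⟩ }
    have hWn : W.Normal := by
      constructor
      rintro a ⟨ha, ha1⟩ g
      refine ⟨hUn.conj_mem a ha g, ?_⟩
      rw [QuotientGroup.mk_mul, QuotientGroup.mk_mul, QuotientGroup.mk_inv, conj_pow, ha1, mul_one,
        mul_inv_cancel]
    have hWU : W ≤ U := fun a ha => ha.1
    have hWZ : ¬ W ≤ Z := by
      intro hcon
      have h2 : u₀ ^ c ∈ W := by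
        refine ⟨pow_mem hu₀ c, ?_⟩
        rw [QuotientGroup.mk_pow, ← pow_mul, mul_comm, ← hc, hm, pow_orderOf_eq_one]
      have h3 := hcon h2
      rw [← QuotientGroup.eq_one_iff, QuotientGroup.mk_pow] at h3
      have h4 := orderOf_dvd_of_pow_eq_one h3
      rw [← hm, hc] at h4
      have hc0 : 0 < c := by
        rcases Nat.eq_zero_or_pos c with h | h
        · rw [h, mul_zero] at hc; exact absurd hc hm0
        · exact h
      have h5 := Nat.le_of_dvd hc0 h4
      have := hp.two_le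
      nlinarith
    have hWe : U ≤ W := hU.le_of_le (show W ∈ S from ⟨hWn, hWU.trans hUM, hWZ⟩) hWU
    have hpow : ∀ u ∈ U, u ^ p ∈ Z := by
      intro u hu
      have h2 := (hWe hu).2
      rw [← QuotientGroup.mk_pow, QuotientGroup.eq_one_iff] at h2
      exact h2
    exact case_a hr hperf hch hη hr' h1 h0 Z hZ lam hlam hinj U hUZ hcomm hcent hp hpow

/-- **Rigidity.** -/
theorem rig_step {r : ℕ} (hr : 2 ≤ r) (hperf : commutator D = ⊤)
    (hch : Chn r (⊤ : Subgroup D)) (IH : RigBelow.{u} r (Nat.card D)) {θ : D → ℂ}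
    (hθ : IsHeilbronn θ) {r' : ℕ} (hr' : r' ≤ r) (h1 : θ 1 = r') : ∀ d, θ d = θ 1 := by
  classical
  have hcz : ∀ z ∈ Subgroup.center D, θ z = θ 1 := by
    apply const_on_center _ le_rfl
    intro l hl
    obtain ⟨r'', hr'', h2⟩ := cpart_one_le hθ h1 (Subgroup.center D) le_rfl l
    by_contra hcon
    refine center_step hr hperf hch IH (cpart_isHeilbronn hθ (Subgroup.center D) le_rfl l)
      (hr''.trans hr') h2 ?_ (Subgroup.center D) rfl l hl (fun z g => cpart_mul _ l z g)
    rintro rfl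
    exact hcon (by rw [h2, Nat.cast_zero])
  by_cases hZ : Subgroup.center D = ⊥
  swap
  · exact quot_step hr hperf hch IH hθ hr' h1 _ hZ hcz
  by_cases hnt : Nontrivial D
  swap
  · rw [not_nontrivial_iff_subsingleton] at hnt
    intro d
    rw [Subsingleton.elim d 1]
  obtain ⟨n, π, hn, hπ⟩ := hch.exists_top hr hperf hnt rfl
  have hn8 := hn.eight hr
  have hMtop : π.ker ≠ ⊤ := by
    intro h
    have h2 : Nontrivial (alternatingGroup (Fin n)) := (alt_simple hn8).toNontrivial
    obtain ⟨a, b, hab⟩ := h2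
    apply hab
    obtain ⟨x, rfl⟩ := hπ a
    obtain ⟨y, rfl⟩ := hπ b
    have hx : x ∈ π.ker := by rw [h]; exact Subgroup.mem_top x
    have hy : y ∈ π.ker := by rw [h]; exact Subgroup.mem_top y
    rw [MonoidHom.mem_ker.mp hx, MonoidHom.mem_ker.mp hy]
  by_cases hM : π.ker = ⊥
  · -- an alternating group
    let e : D ≃* alternatingGroup (Fin n) :=
      MulEquiv.ofBijective π ⟨(MonoidHom.ker_eq_bot_iff π).mp hM, hπ⟩
    obtain ⟨-, k, hk, hlt⟩ := hn
    intro d
    have h2 := alt_core (by omega) hk (hθ.comp e.symm.toMonoidHom) (r := r')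
      (by simpa using h1) (lt_of_le_of_lt hr' hlt) (e d)
    simpa using h2
  · let S : Set (Subgroup D) := {U | U.Normal ∧ U ≤ π.ker ∧ U ≠ ⊥}
    obtain ⟨U, hU⟩ := (Set.toFinite S).exists_minimal ⟨π.ker, inferInstance, le_rfl, hM⟩
    obtain ⟨hUn, hUM, hUne⟩ := hU.prop
    have hUtop : U ≠ ⊤ := fun h => hMtop (top_le_iff.mp (h ▸ hUM))
    have hUU : ⁅U, U⁆ ≤ U := Subgroup.commutator_le_left U U
    by_cases hp : ⁅U, U⁆ = ⊥
    · have hidx := eq_top_of_index_le hr hperf hch
      have hcomm : ∀ a b : U, a * b = b * a := by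
        intro a b
        apply Subtype.ext
        have h4 : (a : D) * b * (a : D)⁻¹ * (b : D)⁻¹ ∈ ⁅U, U⁆ :=
          Subgroup.commutator_mem_commutator a.2 b.2
        rw [hp, Subgroup.mem_bot, mul_inv_eq_one, mul_inv_eq_iff_eq_mul] at h4
        exact h4
      have h2 := comm_kernel hθ h1 (fun H hH => hidx H (hH.trans hr')) U hcomm
      refine quot_step hr hperf hch IH hθ hr' h1 ⁅(⊤ : Subgroup D), U⁆ ?_ h2
      intro h3
      apply hUne
      rw [eq_bot_iff, ← hZ]
      intro v hv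
      rw [Subgroup.mem_center_iff]
      intro g
      have h4 : g * v * g⁻¹ * v⁻¹ ∈ ⁅(⊤ : Subgroup D), U⁆ :=
        Subgroup.commutator_mem_commutator (Subgroup.mem_top g) hv
      rw [h3, Subgroup.mem_bot, mul_inv_eq_one, mul_inv_eq_iff_eq_mul] at h4
      exact h4
    · have h3 : U ≤ ⁅U, U⁆ :=
        hU.le_of_le (show ⁅U, U⁆ ∈ S from ⟨inferInstance, hUU.trans hUM, hp⟩) hUU
      exact quot_step hr hperf hch IH hθ hr' h1 U hUne
        (sub_step hr hch IH hθ hr' h1 U hUtop (le_antisymm hUU h3))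

end

theorem rig_aux {r : ℕ} (hr : 2 ≤ r) : ∀ N : ℕ, RigBelow.{u} r N := by
  intro N
  induction N with
  | zero => intro E _ _ h; omega
  | succ N ih =>
    intro E _ _ hE hp hch θ hθ r' hr' h1
    apply rig_step hr hp hch _ hθ hr' h1
    intro F _ _ hF
    exact ih F (by omega)

/-- **Rigidity.** A Heilbronn function of degree at most `r` on a perfect finite group with a chain
of abelian and allowed alternating layers is constant. -/
theorem rig {r : ℕ} (hr : 2 ≤ r) {D : Type u} [Group D] [Finite D] (hperf : commutator D = ⊤)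
    (hch : Chn r (⊤ : Subgroup D)) {θ : D → ℂ} (hθ : IsHeilbronn θ) {r' : ℕ} (hr' : r' ≤ r)
    (h1 : θ 1 = r') (d : D) : θ d = θ 1 :=
  rig_aux hr (Nat.card D + 1) D (Nat.lt_succ_self _) hperf hch θ hθ r' hr' h1 d

end Pool.Agent.H302R7
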